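import Pool.Agent.H294Z.Cube.Words

set_option autoImplicit false

namespace Pool.Agent.H294Z.Cube

/-- A cube complex skeleton with its vertex distance. -/
structure Met (D V : Type) extends Cx D where
  src : D → V
  s1 : ∀ {d e d' e'}, Sq d e d' e' → src d = src e
  s2 : ∀ {d e d' e'}, Sq d e d' e' → src d' = src (rev e)
  h : V → V → ℕ
  h_self : ∀ w, h w w = 0
  h_zero : ∀ w v, h w v = 0 → v = w
  h_step : ∀ w d, h w (src d) = h w (src (rev d)) + 1 ∨ h w (src (rev d)) = h w (src d) + 1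
  h_down : ∀ w v, h w v ≠ 0 → ∃ d, src d = v ∧ h w (src d) = h w (src (rev d)) + 1
  quad : ∀ w d e, src d = src e → d ≠ e → h w (src d) = h w (src (rev d)) + 1 →
    h w (src e) = h w (src (rev e)) + 1 →
    ∃ d' e', Sq d e d' e' ∧ h w (src d') = h w (src (rev d')) + 1

namespace Cx

variable {D V : Type} (X : Cx D) (src : D → V)

def Walk (w : V) : V → List D → Prop
  | v, [] => v = w
  | v, a :: p => src (X.rev a) = v ∧ Walk w (src a) p

variable {X src}

lemma Walk.flip (s1 : ∀ {d e d' e'}, X.Sq d e d' e' → src d = src e)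
    (s2 : ∀ {d e d' e'}, X.Sq d e d' e' → src d' = src (X.rev e))
    {w : V} {p q : List D} (h : X.Flip p q) : ∀ v, X.Walk src w v p → X.Walk src w v q := by
  induction h with
  | head r hs =>
    rintro v ⟨h1, -, h3⟩
    refine ⟨?_, (s2 hs).symm, ?_⟩
    · rw [← h1]
      exact s1 (rot2 hs)
    · rw [← s1 hs]
      exact h3
  | cons a _ ih =>
    rintro v ⟨h1, h2⟩
    exact ⟨h1, ih _ h2⟩

lemma Walk.eqv (s1 : ∀ {d e d' e'}, X.Sq d e d' e' → src d = src e)
    (s2 : ∀ {d e d' e'}, X.Sq d e d' e' → src d' = src (X.rev e))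
    {w v : V} {p q : List D} (h : X.Eqv p q) (hw : X.Walk src w v p) : X.Walk src w v q := by
  induction h with
  | refl => exact hw
  | tail _ hf ih => exact Walk.flip s1 s2 hf v ih

theorem exists_met (X : Cx D) (src : D → V)
    (s1 : ∀ {d e d' e'}, X.Sq d e d' e' → src d = src e)
    (s2 : ∀ {d e d' e'}, X.Sq d e d' e' → src d' = src (X.rev e))
    (conn : ∀ u v, Relation.ReflTransGen (fun a b => ∃ d, src d = a ∧ src (X.rev d) = b) u v)
    (ψ : V → Equiv.Perm X.St) (hψ : ∀ d, ψ (src (X.rev d)) = X.T d * ψ (src d)) :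
    ∃ M : Met D V, M.toCx = X ∧ M.src = src := by
  obtain ⟨σ, hred, hself, hstep⟩ := X.exists_words src ψ hψ
  have hwalk : ∀ w v, X.Walk src w v (σ w v) := by
    intro w v
    induction conn w v with
    | refl => rw [hself]; rfl
    | tail _ hd ih =>
      obtain ⟨d, rfl, rfl⟩ := hd
      refine Walk.eqv s1 s2 (hstep w d).symm ?_
      by_cases hl : X.Last (σ w (src d)) (X.rev d)
      · obtain ⟨q, hq⟩ := hl
        exact Walk.eqv s1 s2 (step_pos (hred _ _) hq).symm (Walk.eqv s1 s2 hq ih).2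
      · rw [step_neg hl]
        exact ⟨rfl, ih⟩
  have pos : ∀ w d q, X.Eqv (σ w (src d)) (X.rev d :: q) → X.Eqv (σ w (src (X.rev d))) q :=
    fun w d q hq => (hstep w d).trans (step_pos (hred _ _) hq)
  have posl : ∀ w d, X.Last (σ w (src d)) (X.rev d) →
      (σ w (src d)).length = (σ w (src (X.rev d))).length + 1 := by
    rintro w d ⟨q, hq⟩
    rw [hq.length, (pos w d q hq).length, List.length_cons]
  have negl : ∀ w d, ¬ X.Last (σ w (src d)) (X.rev d) →
      (σ w (src (X.rev d))).length = (σ w (src d)).length + 1 := by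
    intro w d hl
    rw [(hstep w d).length, step_neg hl, List.length_cons]
  have back : ∀ w d, (σ w (src d)).length = (σ w (src (X.rev d))).length + 1 →
      X.Last (σ w (src d)) (X.rev d) := by
    intro w d hh
    by_contra hl
    have := negl w d hl
    omega
  refine ⟨{ X with
    src := src, s1 := s1, s2 := s2, h := fun w v => (σ w v).length
    h_self := fun w => by simp [hself]
    h_zero := fun w v hv => ?_
    h_step := fun w d => ?_
    h_down := fun w v hv => ?_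
    quad := fun w d e hde hne hd he => ?_ }, rfl, rfl⟩
  · have := hwalk w v
    rw [List.length_eq_zero_iff.1 hv] at this
    exact this
  · by_cases hl : X.Last (σ w (src d)) (X.rev d)
    · exact Or.inl (posl w d hl)
    · exact Or.inr (negl w d hl)
  · have h1 := hwalk w v
    cases hp : σ w v with
    | nil => simp [hp] at hv
    | cons a q =>
      rw [hp] at h1
      refine ⟨X.rev a, h1.1, posl w _ ⟨q, ?_⟩⟩
      rw [h1.1, hp, X.rev_rev]
      exact Eqv.refl _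
  · obtain ⟨q, hq⟩ := back w d hd
    obtain ⟨r, hr⟩ := back w e he
    have hr' := hr
    rw [← hde] at hr'
    rcases alt (hred _ _) hq hr' with ⟨e1, -⟩ | ⟨a', b', s, -, e2, e3⟩
    · exact absurd (X.rev_inj e1) hne
    · have e4 := X.sym (rot2 e3)
      rw [X.rev_rev, X.rev_rev] at e4
      refine ⟨_, _, e4, posl w _ ⟨s, ?_⟩⟩
      rw [s2 e4, X.rev_rev]
      exact (pos w e r hr).trans e2

end Cx

namespace Met

variable {D V : Type} (M : Met D V)

/-- the oriented edge `d` points toward `w` -/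
def Tw (w : V) (d : D) : Prop := M.h w (M.src d) = M.h w (M.src (M.rev d)) + 1

def Adj (d e : D) : Prop := ∃ d' e', M.Sq d e d' e'

def Par (d d' : D) : Prop := Relation.ReflTransGen (fun a b => ∃ e e', M.Sq a e b e') d d'

variable {M}

lemma Adj.symm {d e : D} (h : M.Adj d e) : M.Adj e d := by
  obtain ⟨d', e', h⟩ := h
  exact ⟨_, _, M.sym h⟩

lemma not_tw {w : V} {d : D} (h : ¬ M.Tw w d) :
    M.h w (M.src (M.rev d)) = M.h w (M.src d) + 1 := (M.h_step w d).resolve_left h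

lemma tw_rev (w : V) (d : D) : M.Tw w (M.rev d) ↔ ¬ M.Tw w d := by
  unfold Tw
  rw [M.rev_rev]
  rcases M.h_step w d with h | h <;> omega

lemma lip (n : ℕ) : ∀ u v w, M.h u v = n → M.h w v ≤ M.h w u + n ∧ M.h w u ≤ M.h w v + n := by
  induction n with
  | zero =>
    intro u v w h
    rw [M.h_zero u v h]
    omega
  | succ n ih =>
    intro u v w h
    obtain ⟨d, rfl, hd⟩ := M.h_down u v (by omega)
    have := ih u (M.src (M.rev d)) w (by omega)
    rcases M.h_step w d with h | h <;> omega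

lemma h_comm (u v : V) : M.h u v = M.h v u := by
  have h1 := (lip (M := M) _ u v v rfl).2
  have h2 := (lip (M := M) _ v u u rfl).2
  have := M.h_self u
  have := M.h_self v
  omega

lemma tri (u v w : V) : M.h w v ≤ M.h w u + M.h u v := (lip _ u v w rfl).1

lemma tw_sq' {w : V} {d e d' e' : D} (h : M.Sq d e d' e') (ht : M.Tw w d) : M.Tw w d' := by
  by_contra hn
  have a1 := not_tw hn
  have a2 := M.s1 h
  have a3 := M.s2 h
  have a4 := M.s2 (M.sym h)
  have a5 := M.s1 (Cx.rot2 h)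
  have b1 := M.h_step w e
  have b2 := M.h_step w e'
  have ht' : M.h w (M.src d) = M.h w (M.src (M.rev d)) + 1 := ht
  rw [← a2, ← a3] at b1
  rw [a4, ← a5] at b2
  have he : M.h w (M.src e) = M.h w (M.src (M.rev e)) + 1 := by
    rw [← a2, ← a3]
    omega
  obtain ⟨d'', e'', h2, h3⟩ := M.quad w d e a2 (M.ne h) ht he
  rw [← (M.uniq h h2).1] at h3
  exact hn h3

lemma Par.refl (d : D) : M.Par d d := Relation.ReflTransGen.refl

lemma Par.trans {a b c : D} (h : M.Par a b) (h' : M.Par b c) : M.Par a c :=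
  Relation.ReflTransGen.trans h h'

lemma par_sq {d e d' e' : D} (h : M.Sq d e d' e') : M.Par d d' :=
  Relation.ReflTransGen.single ⟨e, e', h⟩

lemma Par.symm {a b : D} (h : M.Par a b) : M.Par b a := by
  induction h with
  | refl => exact Par.refl _
  | tail _ h ih =>
    obtain ⟨e, e', h⟩ := h
    exact (par_sq (Cx.rotB h)).trans ih

lemma Par.rev {a b : D} (h : M.Par a b) : M.Par (M.rev a) (M.rev b) := by
  induction h with
  | refl => exact Par.refl _
  | tail _ h ih =>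
    obtain ⟨e, e', h⟩ := h
    exact ih.trans (par_sq (M.rot h))

lemma Par.tw {a b : D} (h : M.Par a b) {w : V} (ht : M.Tw w a) : M.Tw w b := by
  induction h with
  | refl => exact ht
  | tail _ h ih =>
    obtain ⟨e, e', h⟩ := h
    exact tw_sq' h ih

lemma not_tw_src (d : D) : ¬ M.Tw (M.src d) d := by
  unfold Tw
  rw [M.h_self]
  omega

lemma tw_tgt (d : D) : M.Tw (M.src (M.rev d)) d := by
  have := not_tw_src (M := M) (M.rev d)
  rw [tw_rev] at this
  exact not_not.1 this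

lemma Par.eq {d d' : D} (h : M.Par d d') (hs : M.src d = M.src d') : d = d' := by
  by_contra hne
  have h1 := tw_tgt (M := M) d
  have h2 := h.tw h1
  obtain ⟨a, b, h3, h4⟩ := M.quad _ d' d hs.symm (Ne.symm hne) h2 h1
  rw [M.s2 h3, M.h_self] at h4
  omega

lemma Adj.not_par {d e : D} (h : M.Adj d e) : ¬ M.Par d e := by
  obtain ⟨d', e', h⟩ := h
  exact fun hp => M.ne h (hp.eq (M.s1 h))

lemma Adj.not_par_rev {d e : D} (h : M.Adj d e) : ¬ M.Par d (M.rev e) := by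
  obtain ⟨d', e', h⟩ := h
  intro hp
  have h1 := tw_tgt (M := M) (M.rev e)
  rw [M.rev_rev, ← M.s1 h] at h1
  exact not_tw_src d (hp.symm.tw h1)

lemma quad' {w : V} {d e : D} (hs : M.src d = M.src e) (hne : d ≠ e) (hd : M.Tw w d)
    (he : M.Tw w e) : M.Adj d e := by
  obtain ⟨a, b, h, -⟩ := M.quad w d e hs hne hd he
  exact ⟨a, b, h⟩

lemma conv {d d' e : D} (h : M.Par d d') (hs : M.src d = M.src e) (ht : M.Tw (M.src d') e) :
    M.Adj d e := by
  have h1 : M.Tw (M.src (M.rev d')) d := h.symm.tw (tw_tgt d')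
  have h2 : ¬ M.Tw (M.src d') d := fun hh => not_tw_src d' (h.tw hh)
  have h3 := not_tw (fun hh => not_tw_src d (h.symm.tw hh))
  refine quad' hs (fun hde => h2 (hde ▸ ht)) h1 ?_
  have h4 := M.h_step (M.src (M.rev e)) d'
  have h5 := M.h_step (M.src (M.rev d')) e
  have h6 : M.h (M.src d') (M.src e) = M.h (M.src d') (M.src (M.rev e)) + 1 := ht
  rw [hs, h_comm (M.src e), h_comm (M.src e)] at h3
  rw [h_comm (M.src (M.rev e)), h_comm (M.src (M.rev e))] at h4
  unfold Tw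
  omega

lemma adj_of_par {d e d' e' : D} (h : M.Adj d' e') (hd : M.Par d d') (he : M.Par e e')
    (hs : M.src d = M.src e) : M.Adj d e := by
  have hn := h.not_par
  obtain ⟨a, b, h⟩ := h
  have h1 : M.Tw (M.src (M.rev a)) d := (hd.trans (par_sq h)).symm.tw (tw_tgt a)
  have h2 : M.Tw (M.src (M.rev b)) e := (he.trans (par_sq (M.sym h))).symm.tw (tw_tgt b)
  rw [← M.s1 (Cx.rot2 h)] at h2
  refine quad' hs (fun hde => hn ?_) h1 h2
  subst hde
  exact hd.symm.trans he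

lemma between (n : ℕ) : ∀ u x y, M.h x u = n → (∀ g, M.src g = u → M.Tw x g → ¬ M.Tw y g) →
    M.h x y = M.h x u + M.h y u := by
  induction n with
  | zero =>
    intro u x y h _
    rw [M.h_zero x u h, M.h_self, h_comm]
    omega
  | succ n ih =>
    intro u x y h hg
    obtain ⟨d, rfl, hd⟩ := M.h_down x u (by omega)
    have h1 := hg d rfl hd
    have h2 := not_tw h1
    have h3 := ih (M.src (M.rev d)) x y (by omega) (fun g hs hx hy => by
      have hne : M.rev d ≠ g := by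
        rintro rfl
        exact (tw_rev x d).1 hx hd
      obtain ⟨a, b, hq⟩ := quad' hs.symm hne ((tw_rev y d).2 h1) hy
      have h4 := M.s2 (M.sym hq)
      rw [M.rev_rev] at h4
      exact hg b h4 (tw_sq' (M.sym hq) hx) (tw_sq' (M.sym hq) hy))
    omega

variable (M)

def Cvx (C : Set V) : Prop := ∀ g x, M.src g ∈ C → x ∈ C → M.Tw x g → M.src (M.rev g) ∈ C

def Car (d : D) : Set V := {u | ∃ d', M.Par d d' ∧ M.src d' = u}

variable {M}

lemma cvx_car (d : D) : M.Cvx (M.Car d) := by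
  rintro g x ⟨a, ha, hs⟩ ⟨b, hb, rfl⟩ ht
  obtain ⟨a', g', h⟩ := conv (ha.symm.trans hb) hs ht
  exact ⟨a', ha.trans (par_sq h), M.s2 h⟩

lemma Cvx.inter {C C' : Set V} (h : M.Cvx C) (h' : M.Cvx C') : M.Cvx (C ∩ C') :=
  fun g x hg hx ht => ⟨h g x hg.1 hx.1 ht, h' g x hg.2 hx.2 ht⟩

lemma Cvx.mem {C : Set V} (hC : M.Cvx C) (n : ℕ) : ∀ u x y, M.h u x = n → x ∈ C → y ∈ C →
    M.h y x = M.h u x + M.h y u → u ∈ C := by
  induction n with
  | zero =>
    intro u x y h hx _ _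
    rwa [← M.h_zero u x h]
  | succ n ih =>
    intro u x y h hx hy he
    obtain ⟨d, rfl, hd⟩ := M.h_down u x (by omega)
    have h1 := tri (M := M) u (M.src (M.rev d)) y
    have h2 := M.h_step y d
    exact ih u (M.src (M.rev d)) y (by omega) (hC d y hx hy (by unfold Tw; omega)) hy (by omega)

lemma helly {C1 C2 C3 : Set V} (h1 : M.Cvx C1) (h2 : M.Cvx C2) (h3 : M.Cvx C3) {x y : V}
    (hx1 : x ∈ C1) (hx3 : x ∈ C3) (hy2 : y ∈ C2) (hy3 : y ∈ C3) (n : ℕ) :
    ∀ z, M.h x z = n → z ∈ C1 → z ∈ C2 → ∃ u, u ∈ C1 ∧ u ∈ C2 ∧ u ∈ C3 := by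
  induction n using Nat.strong_induction_on with
  | _ n ih =>
    intro z hz hz1 hz2
    by_cases hg : ∀ g, M.src g = z → M.Tw x g → ¬ M.Tw y g
    · have := between _ z x y rfl hg
      refine ⟨z, hz1, hz2, h3.mem _ z x y rfl hx3 hy3 ?_⟩
      rw [h_comm y x, h_comm z x]
      exact this
    · push Not at hg
      obtain ⟨g, rfl, gx, gy⟩ := hg
      have : M.h x (M.src g) = M.h x (M.src (M.rev g)) + 1 := gx
      exact ih _ (by omega) (M.src (M.rev g)) rfl (h1 g x hz1 hx1 gx) (h2 g y hz2 hy2 gy)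

variable (M)

def No4 : Prop := ∀ a b c d, M.Adj a b → M.Adj a c → M.Adj a d → M.Adj b c → M.Adj b d →
  M.Adj c d → False

def Free (d e : D) : Prop := ∀ f f', M.Adj d f → M.Adj e f → M.Adj d f' → M.Adj e f' → f = f'

variable {M}

lemma triple_eq (h4 : M.No4) {d e f d' e' f' : D} (de : M.Adj d e) (df : M.Adj d f)
    (ef : M.Adj e f) (hd : M.Par d d') (he : M.Par e e') (hf : M.Par f f')
    (s1 : M.src d' = M.src e') (s2 : M.src d' = M.src f') : d = d' ∧ e = e' ∧ f = f' := by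
  have t1 : M.src d = M.src e := by
    obtain ⟨_, _, h⟩ := de
    exact M.s1 h
  have t2 : M.src d = M.src f := by
    obtain ⟨_, _, h⟩ := df
    exact M.s1 h
  have key : M.src d = M.src d' := by
    by_contra hne
    obtain ⟨g, hg, ht⟩ := M.h_down (M.src d') (M.src d) (fun h => hne (M.h_zero _ _ h))
    have ht' : M.Tw (M.src d') g := ht
    exact h4 d e f g de df (conv hd hg.symm ht') ef (conv he (t1 ▸ hg.symm) (s1 ▸ ht'))
      (conv hf (t2 ▸ hg.symm) (s2 ▸ ht'))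
  exact ⟨hd.eq key, he.eq (by rw [← t1, ← s1, key]), hf.eq (by rw [← t2, ← s2, key])⟩

lemma far [Finite D] (h4 : M.No4) {d0 e0 : D} (h0 : M.Adj d0 e0) (w : V) :
    ∃ d e, M.Par d0 d ∧ M.Par e0 e ∧ M.Adj d e ∧ M.Free d e ∧
      ∀ d' e', M.Par d0 d' → M.Par e0 e' → M.src d' = M.src e' →
        M.h w (M.src d') ≤ M.h w (M.src d) := by
  have t0 : M.src d0 = M.src e0 := by
    obtain ⟨_, _, h⟩ := h0
    exact M.s1 h
  obtain ⟨⟨d, e⟩, ⟨hd, he, hs⟩, hmax⟩ := Set.exists_max_image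
    {p : D × D | M.Par d0 p.1 ∧ M.Par e0 p.2 ∧ M.src p.1 = M.src p.2}
    (fun p => M.h w (M.src p.1)) (Set.toFinite _) ⟨(d0, e0), Par.refl _, Par.refl _, t0⟩
  have hadj := adj_of_par h0 hd.symm he.symm hs
  have htw : ∀ f, M.Adj d f → M.Adj e f → M.src d = M.src f ∧ M.Tw w f := by
    rintro f ⟨a, _, ha⟩ ⟨b, _, hb⟩
    have := hmax (a, b) ⟨hd.trans (par_sq ha), he.trans (par_sq hb), by
      simp only
      rw [M.s2 ha, M.s2 hb]⟩
    simp only at this
    rw [M.s2 ha, M.s1 ha] at this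
    refine ⟨M.s1 ha, ?_⟩
    have := M.h_step w f
    unfold Tw
    omega
  refine ⟨d, e, hd, he, hadj, fun f f' a1 a2 a3 a4 => ?_, fun d' e' a b c => hmax (d', e') ⟨a, b, c⟩⟩
  by_contra hne
  exact h4 d e f f' hadj a1 a3 a2 a4
    (quad' ((htw f a1 a2).1.symm.trans (htw f' a3 a4).1) hne (htw f a1 a2).2 (htw f' a3 a4).2)

lemma two_free [Finite D] (h4 : M.No4) (pure : ∀ d e, M.Adj d e → ∃ f, M.Adj d f ∧ M.Adj e f)
    {d0 e0 : D} (h0 : M.Adj d0 e0) :
    ∃ d e d' e', M.Par d0 d ∧ M.Par e0 e ∧ M.Par d0 d' ∧ M.Par e0 e' ∧ M.Adj d e ∧ M.Adj d' e' ∧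
      M.Free d e ∧ M.Free d' e' ∧ d ≠ d' := by
  obtain ⟨d, e, a1, a2, a3, a4, -⟩ := far h4 h0 (M.src d0)
  obtain ⟨d', e', b1, b2, b3, b4, b5⟩ := far h4 h0 (M.src d)
  refine ⟨d, e, d', e', a1, a2, b1, b2, a3, b3, a4, b4, ?_⟩
  rintro rfl
  obtain ⟨f, ⟨a, _, ha⟩, ⟨b, _, hb⟩⟩ := pure d e a3
  have h1 := b5 a b (a1.trans (par_sq ha)) (a2.trans (par_sq hb)) (by rw [M.s2 ha, M.s2 hb])
  have h2 := not_tw (not_tw_src (M := M) f)
  rw [M.s2 ha, M.s1 ha] at h1
  omega

variable (M)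

def hyp : Setoid D where
  r d e := M.Par d e ∨ M.Par d (M.rev e)
  iseqv := by
    refine ⟨fun d => Or.inl (Par.refl d), ?_, ?_⟩
    · rintro d e (h | h)
      · exact Or.inl h.symm
      · have := h.symm.rev
        rw [M.rev_rev] at this
        exact Or.inr this
    · rintro d e f (h | h) (h' | h')
      · exact Or.inl (h.trans h')
      · exact Or.inr (h.trans h')
      · exact Or.inr (h.trans h'.rev)
      · have := h'.rev
        rw [M.rev_rev] at this
        exact Or.inl (h.trans this)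

theorem core [Finite D] (h4 : M.No4) (pure : ∀ d e, M.Adj d e → ∃ f, M.Adj d f ∧ M.Adj e f)
    (w0 : V) :
    ∃ (H : Type) (_ : Finite H) (G : SimpleGraph H) (cl : D → H) (o : D → Prop),
      G.CliqueFree 4 ∧ (∀ d, cl (M.rev d) = cl d) ∧ (∀ d, o (M.rev d) ↔ ¬ o d) ∧
      (∀ d e d' e', M.Sq d e d' e' → cl d' = cl d ∧ (o d' ↔ o d) ∧ G.Adj (cl d) (cl e)) ∧
      (∀ d e f d' e' f', M.Adj d e → M.Adj d f → M.Adj e f → M.src d' = M.src e' →
        M.src d' = M.src f' → cl d = cl d' → cl e = cl e' → cl f = cl f' → o d → o e → o f →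
        o d' → o e' → o f' → d = d' ∧ e = e' ∧ f = f') ∧
      (∀ c c', G.Adj c c' → ∃ d e d' e', cl d = c ∧ cl e = c' ∧ cl d' = c ∧ cl e' = c' ∧
        o d ∧ o e ∧ o d' ∧ o e' ∧ M.Adj d e ∧ M.Adj d' e' ∧ M.Free d e ∧ M.Free d' e' ∧ d ≠ d') := by
  let cl : D → Quotient M.hyp := Quotient.mk M.hyp
  have c1 : ∀ {d e}, M.Par d e → cl e = cl d := fun h => Quotient.sound (Or.inl h.symm)
  have c2 : ∀ d, cl (M.rev d) = cl d := fun d => Quotient.sound (Or.inr (Par.refl _))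
  have c3 : ∀ {d e}, cl d = cl e → M.Tw w0 d → M.Tw w0 e → M.Par d e := by
    intro d e h hd he
    rcases (Quotient.exact h : M.Par d e ∨ M.Par d (M.rev e)) with h | h
    · exact h
    · exact absurd he ((tw_rev w0 e).1 (h.tw hd))
  let G : SimpleGraph (Quotient M.hyp) :=
    { Adj := fun c c' => ∃ d e, cl d = c ∧ cl e = c' ∧ M.Adj d e
      symm := ⟨by
        rintro c c' ⟨d, e, h1, h2, h3⟩
        exact ⟨e, d, h2, h1, h3.symm⟩⟩
      loopless := ⟨by
        rintro c ⟨d, e, h1, h2, h3⟩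
        rcases (Quotient.exact (h1.trans h2.symm) : M.Par d e ∨ M.Par d (M.rev e)) with h | h
        · exact h3.not_par h
        · exact h3.not_par_rev h⟩ }
  have c4 : ∀ c c', G.Adj c c' → ∃ d e, cl d = c ∧ cl e = c' ∧ M.Adj d e ∧ M.Tw w0 d ∧
      M.Tw w0 e := by
    rintro c c' ⟨d, e, rfl, rfl, d', e', h⟩
    have p1 := par_sq h
    have p2 := par_sq (M.sym h)
    by_cases hd : M.Tw w0 d <;> by_cases he : M.Tw w0 e
    · exact ⟨d, e, rfl, rfl, ⟨_, _, h⟩, hd, he⟩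
    · exact ⟨d', M.rev e, c1 p1, c2 e, ⟨_, _, Cx.rotB h⟩, p1.tw hd, (tw_rev _ _).2 he⟩
    · exact ⟨M.rev d, e', c2 d, c1 p2, ⟨_, _, M.rot h⟩, (tw_rev _ _).2 hd, p2.tw he⟩
    · exact ⟨M.rev d', M.rev e', (c2 _).trans (c1 p1), (c2 _).trans (c1 p2), ⟨_, _, Cx.rot2 h⟩,
        p1.rev.tw ((tw_rev _ _).2 hd), p2.rev.tw ((tw_rev _ _).2 he)⟩
  refine ⟨Quotient M.hyp, inferInstance, G, cl, M.Tw w0, ?_, c2, tw_rev w0, ?_, ?_, ?_⟩
  · intro s hs
    classical
    obtain ⟨hcl, hcard⟩ := hs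
    obtain ⟨a, t, hat, rfl, ht⟩ := Finset.card_eq_succ.1 hcard
    obtain ⟨b, c, d, hbc, hbd, hcd, rfl⟩ := Finset.card_eq_three.1 ht
    simp only [Finset.mem_insert, Finset.mem_singleton, not_or] at hat
    have g : ∀ x y, x ∈ (insert a {b, c, d} : Finset _) → y ∈ (insert a {b, c, d} : Finset _) →
        x ≠ y → G.Adj x y := fun x y hx hy hxy => hcl hx hy hxy
    have gab := g a b (by simp) (by simp) hat.1
    have gac := g a c (by simp) (by simp) hat.2.1
    have gad := g a d (by simp) (by simp) hat.2.2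
    have gbc := g b c (by simp) (by simp) hbc
    have gbd := g b d (by simp) (by simp) hbd
    have gcd := g c d (by simp) (by simp) hcd
    obtain ⟨a0, b0, rfl, rfl, -, oa, ob⟩ := c4 a b gab
    obtain ⟨c0, d0, rfl, rfl, -, oc, od⟩ := c4 c d gcd
    have k : ∀ {x y}, G.Adj (cl x) (cl y) → M.Tw w0 x → M.Tw w0 y →
        (∃ u, u ∈ M.Car x ∧ u ∈ M.Car y) ∧ ∀ x' y', M.Par x x' → M.Par y y' →
          M.src x' = M.src y' → M.Adj x' y' := by
      intro x y h hx hy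
      obtain ⟨p, q, h1, h2, h3, h5, h6⟩ := c4 _ _ h
      have p1 := c3 h1.symm hx h5
      have p2 := c3 h2.symm hy h6
      refine ⟨⟨M.src p, ⟨p, p1, rfl⟩, ⟨q, p2, ?_⟩⟩, fun x' y' a b c =>
        adj_of_par h3 (a.symm.trans p1) (b.symm.trans p2) c⟩
      obtain ⟨_, _, h⟩ := h3
      exact (M.s1 h).symm
    obtain ⟨⟨uab, ab1, ab2⟩, kab⟩ := k gab oa ob
    obtain ⟨⟨uac, ac1, ac2⟩, kac⟩ := k gac oa oc
    obtain ⟨⟨uad, ad1, ad2⟩, kad⟩ := k gad oa od
    obtain ⟨⟨ubc, bc1, bc2⟩, kbc⟩ := k gbc ob oc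
    obtain ⟨⟨ubd, bd1, bd2⟩, kbd⟩ := k gbd ob od
    obtain ⟨⟨ucd, cd1, cd2⟩, kcd⟩ := k gcd oc od
    obtain ⟨x, x1, x2, x3⟩ := helly (cvx_car a0) (cvx_car b0) (cvx_car c0) ac1 ac2 bc1 bc2 _ uab
      rfl ab1 ab2
    obtain ⟨y, y1, y2, y3⟩ := helly (cvx_car a0) (cvx_car b0) (cvx_car d0) ad1 ad2 bd1 bd2 _ uab
      rfl ab1 ab2
    obtain ⟨u, ⟨⟨a1, pa, sa⟩, ⟨b1, pb, sb⟩⟩, ⟨c1', pc, sc⟩, ⟨d1, pd, sd⟩⟩ :=
      helly ((cvx_car a0).inter (cvx_car b0)) (cvx_car c0) (cvx_car d0) ⟨y1, y2⟩ y3 cd1 cd2 _ x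
        rfl ⟨x1, x2⟩ x3
    exact h4 a1 b1 c1' d1 (kab _ _ pa pb (sa.trans sb.symm)) (kac _ _ pa pc (sa.trans sc.symm))
      (kad _ _ pa pd (sa.trans sd.symm)) (kbc _ _ pb pc (sb.trans sc.symm))
      (kbd _ _ pb pd (sb.trans sd.symm)) (kcd _ _ pc pd (sc.trans sd.symm))
  · intro d e d' e' h
    exact ⟨c1 (par_sq h), ⟨(par_sq h).symm.tw, (par_sq h).tw⟩, d, e, rfl, rfl, _, _, h⟩
  · intro d e f d' e' f' a1 a2 a3 s1 s2 k1 k2 k3 o1 o2 o3 o4 o5 o6
    exact triple_eq h4 a1 a2 a3 (c3 k1 o1 o4) (c3 k2 o2 o5) (c3 k3 o3 o6) s1 s2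
  · intro c c' h
    obtain ⟨d0, e0, rfl, rfl, h0, od, oe⟩ := c4 c c' h
    obtain ⟨d, e, d', e', a1, a2, a3, a4, a5⟩ := two_free h4 pure h0
    exact ⟨d, e, d', e', c1 a1, c1 a2, c1 a3, c1 a4, a1.tw od, a2.tw oe, a3.tw od, a4.tw oe, a5⟩

end Met

end Pool.Agent.H294Z.Cube
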