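import Mathlib

set_option autoImplicit false

namespace Pool.Agent.H294Z.Cube

open unitInterval

/-- The unit cube `[0,1]^3`. -/
abbrev UCube : Type := Fin 3 → I

/-- The closed unit 3-ball. -/
abbrev Ball : Type := Metric.closedBall (0 : EuclideanSpace ℝ (Fin 3)) 1

/-- The 48 isometries of the cube: permute the coordinates by `p`, then reflect those with `s k`. -/
def cubeSym (p : Equiv.Perm (Fin 3)) (s : Fin 3 → Bool) (y : UCube) : UCube :=
  fun k => if s k then σ (y (p k)) else y (p k)

/-- The smallest closed face of the cube containing `y`. -/
def supp (y : UCube) : Set UCube := {z | ∀ k, (y k = 0 ∨ y k = 1) → z k = y k}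

/-- A cubulation of the closed 3-ball (a cube complex in the sense of Bridson and Haefliger,
I.7.37, all of whose cells are faces of finitely many 3-cubes, together with a homeomorphism
onto the ball): `φ i` is the characteristic map of the `i`-th cube. -/
structure Cubulation where
  n : ℕ
  φ : Fin n → UCube → Ball
  cont : ∀ i, Continuous (φ i)
  surj : ∀ x, ∃ i y, φ i y = x
  /-- each open face of each cube is embedded -/
  inj : ∀ i y z, supp y = supp z → φ i y = φ i z → y = z
  /-- points are only identified through isometric identifications of whole faces -/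
  glue : ∀ i j y z, φ i y = φ j z →
    ∃ p s, cubeSym p s y = z ∧ ∀ w ∈ supp y, φ j (cubeSym p s w) = φ i w
  /-- different indices are different 3-cells -/
  distinct : ∀ i j y z, supp y = Set.univ → φ i y = φ j z → i = j

/-- The framed cubes of `X`: a cube with a chosen corner and a chosen order of the three edges
at that corner. -/
def Cubulation.frames (X : Cubulation) : Set (UCube → Ball) :=
  {c | ∃ i p s, c = X.φ i ∘ cubeSym p s}

/-- The `k`-th oriented edge of a framed cube, starting at its corner `c 0`. -/
def edge (c : UCube → Ball) (k : Fin 3) : I → Ball := fun t => c (Pi.single k t)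

/-- The square of a framed cube spanned by its edges `0` and `1`. -/
def square (c : UCube → Ball) : I × I → Ball := fun p => c ![p.1, p.2, 0]

/-- Gromov's link condition. The vertices of the link of a vertex `v` of `X` are the oriented
edges starting at `v`; its 1- and 2-simplices are the corners at `v` of squares and of cubes.
The first three clauses say that every link is a simplicial complex, the last that it is flag. -/
structure Cubulation.FlagLinks (X : Cubulation) : Prop where
  edges_ne : ∀ c ∈ X.frames, edge c 0 ≠ edge c 1
  square_eq : ∀ c ∈ X.frames, ∀ c' ∈ X.frames, edge c 0 = edge c' 0 → edge c 1 = edge c' 1 →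
    square c = square c'
  cube_eq : ∀ c ∈ X.frames, ∀ c' ∈ X.frames, edge c = edge c' → c = c'
  flag : ∀ T : Set (I → Ball), T.Nontrivial →
    T.Pairwise (fun d e => ∃ c ∈ X.frames, d = edge c 0 ∧ e = edge c 1) →
    ∃ c ∈ X.frames, T ⊆ Set.range (edge c)

/-- The squares (2-cells) of `X` lying in the boundary sphere. -/
def Cubulation.boundarySquares (X : Cubulation) : Set (Set Ball) :=
  {Q | (∃ c ∈ X.frames, Q = Set.range (square c)) ∧
    ∀ x ∈ Q, ‖(x : EuclideanSpace ℝ (Fin 3))‖ = 1}

/-- Boundary squares of a set `S` of lattice cubes `a + [0,1]^3`: the pair `(a, k)` is the unit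
square shared by the cubes `a` and `a - e_k`; it is a boundary square when exactly one of these
two cubes is in `S`. -/
def latticeBoundary (S : Finset (Fin 3 → ℤ)) : Set ((Fin 3 → ℤ) × Fin 3) :=
  {q | (q.1 ∈ S ∧ q.1 - Pi.single q.2 1 ∉ S) ∨ (q.1 ∉ S ∧ q.1 - Pi.single q.2 1 ∈ S)}

end Pool.Agent.H294Z.Cube
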