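import Mathlib

set_option autoImplicit false

namespace Pool.Agent.H294Z.Cube

open Topology Filter

/-- A locally constant group valued Cech cocycle on a simply connected, locally path connected
space is a coboundary. -/
theorem descent {B G : Type} [TopologicalSpace B] [SimplyConnectedSpace B]
    [LocallyPathConnectedSpace B] [Group G] (U : B → Set B) (hU : ∀ x, IsOpen (U x))
    (hx : ∀ x, x ∈ U x) (t : B → B → B → G)
    (tself : ∀ x p, p ∈ U x → t x x p = 1)
    (tcomp : ∀ x y z p, p ∈ U x → p ∈ U y → p ∈ U z → t y z p * t x y p = t x z p)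
    (tlc : ∀ x y p, p ∈ U x → p ∈ U y → ∀ᶠ p' in 𝓝 p, t x y p' = t x y p) :
    ∃ h : B → B → G, (∀ x p, p ∈ U x → ∀ᶠ p' in 𝓝 p, h x p' = h x p) ∧
      ∀ x y p, p ∈ U x → p ∈ U y → h y p = t x y p * h x p := by
  let : TopologicalSpace G := ⊥
  have : DiscreteTopology G := ⟨rfl⟩
  let Z : FiberBundleCore B B G :=
    { baseSet := U
      isOpen_baseSet := hU
      indexAt := id
      mem_baseSet_at := hx
      coordChange := fun x y p v => t x y p * v
      coordChange_self := fun x p hp v => by rw [tself x p hp, one_mul]
      continuousOn_coordChange := fun x y => by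
        rintro ⟨p, v⟩ ⟨⟨h1, h2⟩, -⟩
        refine ContinuousAt.continuousWithinAt ?_
        refine Filter.EventuallyEq.continuousAt (y := t x y p * v) ?_
        have a1 : ∀ᶠ q : B × G in 𝓝 (p, v), t x y q.1 = t x y p :=
          (continuous_fst.continuousAt (x := (p, v))).eventually
            (p := fun p' => t x y p' = t x y p) (tlc x y p h1 h2)
        have a2 : ∀ᶠ q : B × G in 𝓝 (p, v), q.2 = v :=
          continuous_snd.continuousAt.eventually (p := fun w => w = v) (by simp)
        filter_upwards [a1, a2] with q e1 e2
        rw [e1, e2]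
      coordChange_comp := fun x y z p hp v => by
        rw [← mul_assoc, tcomp x y z p hp.1.1 hp.1.2 hp.2] }
  have cov : IsCoveringMap Z.proj := FiberBundle.isCoveringMap (F := G) (E := Z.Fiber)
  obtain ⟨b0⟩ : Nonempty B := inferInstance
  obtain ⟨s, ⟨-, hs⟩, -⟩ := cov.existsUnique_continuousMap_lifts (ContinuousMap.id B) b0
    ⟨b0, (1 : G)⟩ rfl
  have hs' : ∀ p, (s p).1 = p := fun p => congrFun hs p
  refine ⟨fun x p => (Z.localTriv x (s p)).2, fun x p hp => ?_, fun x y p h1 h2 => ?_⟩
  · have h1 : ContinuousAt (Z.localTriv x) (s p) := by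
      refine (Z.localTriv x).continuousOn.continuousAt ((Z.localTriv x).open_source.mem_nhds ?_)
      rw [Z.mem_localTriv_source, hs']
      exact hp
    have h2 : ContinuousAt (fun p => (Z.localTriv x (s p)).2) p :=
      continuous_snd.continuousAt.comp (h1.comp s.continuous.continuousAt)
    exact h2.eventually (p := fun w => w = (Z.localTriv x (s p)).2) (by simp)
  · simp only [Z.localTriv_apply]
    show t (s p).1 y (s p).1 * _ = t x y p * (t (s p).1 x (s p).1 * _)
    rw [hs', ← mul_assoc, tcomp p x y p (hx p) h1 h2]

/-- potential on the corners of one cube -/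
lemma cube_potential {G : Type} [Group G] (t : (Fin 3 → Bool) → Fin 3 → G)
    (h1 : ∀ a l, t (Function.update a l (!a l)) l = (t a l)⁻¹)
    (h2 : ∀ a l m, l ≠ m → t (Function.update a l (!a l)) m * t a l =
      t (Function.update a m (!a m)) l * t a m) :
    ∃ P : (Fin 3 → Bool) → G, ∀ a l, P (Function.update a l (!a l)) = t a l * P a := by
  have u0 : ∀ x y z w : Bool, Function.update ![x, y, z] 0 w = ![w, y, z] := by
    intro x y z w
    funext k
    fin_cases k <;> simp
  have u1 : ∀ x y z w : Bool, Function.update ![x, y, z] 1 w = ![x, w, z] := by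
    intro x y z w
    funext k
    fin_cases k <;> simp
  have u2 : ∀ x y z w : Bool, Function.update ![x, y, z] 2 w = ![x, y, w] := by
    intro x y z w
    funext k
    fin_cases k <;> simp
  let P : (Fin 3 → Bool) → G := fun a => (if a 2 then t ![a 0, a 1, false] 2 else 1) *
    ((if a 1 then t ![a 0, false, false] 1 else 1) * (if a 0 then t ![false, false, false] 0 else 1))
  have key : ∀ a l, a l = false → P (Function.update a l (!a l)) = t a l * P a := by
    intro a l hl
    obtain ⟨x, y, z, rfl⟩ : ∃ x y z, a = ![x, y, z] := ⟨a 0, a 1, a 2, by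
      funext k
      fin_cases k <;> rfl⟩
    have s01 := fun z => h2 ![false, false, z] 0 1 (by decide)
    have s02 := fun y => h2 ![false, y, false] 0 2 (by decide)
    have s12 := fun x => h2 ![x, false, false] 1 2 (by decide)
    simp only [u0, u1, u2, Matrix.cons_val_zero, Matrix.cons_val_one, Matrix.cons_val,
      Bool.not_false] at s01 s02 s12
    fin_cases l
    · simp only [Fin.zero_eta, Matrix.cons_val_zero] at hl
      subst hl
      simp only [Fin.zero_eta, u0, P, Matrix.cons_val_zero, Matrix.cons_val_one, Matrix.cons_val,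
        Bool.not_false]
      cases y <;> cases z
      · simp
      · simp [s02]
      · simp [s01]
      · simp only [if_true, Bool.false_eq_true, if_false, mul_one]
        rw [s01, ← mul_assoc, s02, mul_assoc]
    · simp only [Fin.mk_one, Matrix.cons_val_one, Matrix.cons_val_zero] at hl
      subst hl
      simp only [Fin.mk_one, u1, P, Matrix.cons_val_zero, Matrix.cons_val_one, Matrix.cons_val,
        Bool.not_false]
      cases z <;> simp [s12, ← mul_assoc]
    · simp only [Fin.reduceFinMk, Matrix.cons_val] at hl
      subst hl
      simp [u2, P]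
  refine ⟨P, fun a l => ?_⟩
  cases hl : a l with
  | false =>
    have := key a l hl
    rwa [hl] at this
  | true =>
    have h3 := key (Function.update a l (!a l)) l (by simp [hl])
    have h4 : Function.update (Function.update a l (!a l)) l
        (!(Function.update a l (!a l)) l) = a := by simp
    rw [h4, h1, hl] at h3
    rw [h3, ← mul_assoc, mul_inv_cancel, one_mul]

end Pool.Agent.H294Z.Cube
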