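import Pool.Agent.H294Z.Cube.Defs
import Pool.Agent.H294Z.Cube.Core

set_option autoImplicit false

namespace Pool.Agent.H294Z.Cube

open unitInterval

def IsSym (g : UCube → UCube) : Prop := ∃ p s, g = cubeSym p s

lemma cubeSym_comp (p p' : Equiv.Perm (Fin 3)) (s s' : Fin 3 → Bool) (y : UCube) :
    cubeSym p s (cubeSym p' s' y) = cubeSym (p.trans p') (fun k => xor (s k) (s' (p k))) y := by
  funext k
  simp only [cubeSym, Equiv.trans_apply]
  cases s k <;> cases s' (p k) <;> simp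

lemma cubeSym_one (y : UCube) : cubeSym (Equiv.refl _) (fun _ => false) y = y := by
  funext k
  simp [cubeSym]

lemma IsSym.comp {g g' : UCube → UCube} (h : IsSym g) (h' : IsSym g') : IsSym (g ∘ g') := by
  obtain ⟨p, s, rfl⟩ := h
  obtain ⟨p', s', rfl⟩ := h'
  exact ⟨_, _, funext fun y => cubeSym_comp p p' s s' y⟩

lemma IsSym.inv {g : UCube → UCube} (h : IsSym g) :
    ∃ g', IsSym g' ∧ (∀ y, g' (g y) = y) ∧ ∀ y, g (g' y) = y := by
  obtain ⟨p, s, rfl⟩ := h
  refine ⟨cubeSym p.symm (fun k => s (p.symm k)), ⟨_, _, rfl⟩, fun y => ?_, fun y => ?_⟩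
  · rw [cubeSym_comp]
    simp [cubeSym_one]
  · rw [cubeSym_comp]
    simp [cubeSym_one]

lemma IsSym.cont {g : UCube → UCube} (h : IsSym g) : Continuous g := by
  obtain ⟨p, s, rfl⟩ := h
  refine continuous_pi fun k => ?_
  unfold cubeSym
  split_ifs
  · exact continuous_symm.comp (continuous_apply _)
  · exact continuous_apply _

lemma IsSym.dist_le {g : UCube → UCube} (h : IsSym g) (y z : UCube) :
    dist (g y) (g z) ≤ dist y z := by
  obtain ⟨p, s, rfl⟩ := h
  refine (dist_pi_le_iff dist_nonneg).2 fun k => le_trans (le_of_eq ?_) (dist_le_pi_dist y z (p k))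
  unfold cubeSym
  split_ifs
  · simp only [Subtype.dist_eq, coe_symm_eq, dist_sub_left]
  · rfl

lemma mem_supp_self (y : UCube) : y ∈ supp y := fun _ _ => rfl

lemma supp_trans {w y z : UCube} (h : w ∈ supp y) (h' : y ∈ supp z) : w ∈ supp z :=
  fun k hk => by
    have := h' k hk
    rw [h k (by rw [this]; exact hk), this]

lemma supp_eq {y z : UCube} (h : y ∈ supp z) (h' : z ∈ supp y) : supp y = supp z :=
  Set.ext fun _ => ⟨fun hw => supp_trans hw h, fun hw => supp_trans hw h'⟩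

lemma IsSym.supp_mem {g : UCube → UCube} (h : IsSym g) {w y : UCube} (hw : w ∈ supp y) :
    g w ∈ supp (g y) := by
  obtain ⟨p, s, rfl⟩ := h
  intro k hk
  unfold cubeSym at hk ⊢
  rw [hw (p k)]
  split_ifs at hk
  · simp only [symm_eq_zero, symm_eq_one] at hk
    exact hk.symm
  · exact hk

lemma IsSym.supp_eq {g : UCube → UCube} (h : IsSym g) {y z : UCube} (hw : supp y = supp z) :
    supp (g y) = supp (g z) :=
  Cube.supp_eq (h.supp_mem (hw ▸ mem_supp_self y)) (h.supp_mem (hw ▸ mem_supp_self z))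

noncomputable def mid (y w : UCube) : UCube := fun k => ⟨((y k : ℝ) + w k) / 2, by
  have := (y k).2
  have := (w k).2
  simp only [Set.mem_Icc] at *
  constructor <;> linarith⟩

lemma IsSym.mid {g : UCube → UCube} (h : IsSym g) (y w : UCube) :
    g (mid y w) = mid (g y) (g w) := by
  obtain ⟨p, s, rfl⟩ := h
  funext k
  apply Subtype.ext
  simp only [cubeSym, Cube.mid]
  split_ifs
  · simp only [coe_symm_eq]
    ring
  · rfl

lemma mid_inj {y w w' : UCube} (h : mid y w = mid y w') : w = w' := by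
  funext k
  apply Subtype.ext
  have := congrArg Subtype.val (congrFun h k)
  simp only [mid] at this
  linarith

lemma supp_mid {y w : UCube} (h : w ∈ supp y) : supp (mid y w) = supp y := by
  refine supp_eq (fun k hk => ?_) (fun k hk => ?_)
  · apply Subtype.ext
    simp only [mid, h k hk]
    ring
  · have h1 := (y k).2
    have h2 := (w k).2
    simp only [Set.mem_Icc] at h1 h2
    apply Subtype.ext
    rcases hk with hk | hk
    · have := congrArg Subtype.val hk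
      simp only [mid, Set.Icc.coe_zero] at this ⊢
      linarith
    · have := congrArg Subtype.val hk
      simp only [mid, Set.Icc.coe_one] at this ⊢
      linarith

/-- corners of the cube -/
def cor (a : Fin 3 → Bool) : UCube := fun k => if a k then 1 else 0

def flp (l : Fin 3) (a : Fin 3 → Bool) : Fin 3 → Bool := Function.update a l (!a l)

def pt (a : Fin 3 → Bool) (l : Fin 3) (t : I) : UCube := cubeSym (Equiv.refl _) a (Pi.single l t)

def EE (c : UCube → Ball) (a : Fin 3 → Bool) (l : Fin 3) : I → Ball := fun t => c (pt a l t)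

def bot : Fin 3 → Bool := fun _ => false

lemma cor_inj {a b : Fin 3 → Bool} (h : cor a = cor b) : a = b := by
  funext k
  have := congrFun h k
  unfold cor at this
  cases ha : a k <;> cases hb : b k <;> simp_all

lemma flp_flp (l : Fin 3) (a : Fin 3 → Bool) : flp l (flp l a) = a := by simp [flp]

lemma flp_comm (l m : Fin 3) (a : Fin 3 → Bool) : flp l (flp m a) = flp m (flp l a) := by
  by_cases h : l = m
  · rw [h]
  · funext k
    simp only [flp, Function.update_apply]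
    split_ifs <;> simp_all

lemma pt_zero (a : Fin 3 → Bool) (l : Fin 3) : pt a l 0 = cor a := by
  funext k
  simp [pt, cubeSym, cor]

lemma pt_symm (a : Fin 3 → Bool) (l : Fin 3) (t : I) : pt a l (σ t) = pt (flp l a) l t := by
  funext k
  simp only [pt, cubeSym, flp, Equiv.refl_apply]
  by_cases h : k = l
  · subst h
    cases a k <;> simp
  · simp [h]

lemma pt_bot (l : Fin 3) (t : I) : pt bot l t = Pi.single l t := cubeSym_one _

lemma cubeSym_pt (p : Equiv.Perm (Fin 3)) (s a : Fin 3 → Bool) (l : Fin 3) (t : I) :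
    cubeSym p s (pt a l t) = pt (fun k => xor (s k) (a (p k))) (p.symm l) t := by
  unfold pt
  rw [cubeSym_comp]
  funext k
  have : (Pi.single l t : UCube) (p k) = (Pi.single (p.symm l) t : UCube) k := by
    simp only [Pi.single_apply, Equiv.eq_symm_apply]
  simp only [cubeSym, Equiv.trans_apply, Equiv.refl_apply, this]

lemma act_flp (p : Equiv.Perm (Fin 3)) (s a : Fin 3 → Bool) (l : Fin 3) :
    (fun k => xor (s k) (flp l a (p k))) = flp (p.symm l) (fun k => xor (s k) (a (p k))) := by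
  funext k
  simp only [flp, Function.update_apply, Equiv.eq_symm_apply, Equiv.apply_symm_apply]
  split_ifs with h
  · subst h
    simp
  · rfl

lemma EE_comp (c : UCube → Ball) (p : Equiv.Perm (Fin 3)) (s a : Fin 3 → Bool) (l : Fin 3) :
    EE (c ∘ cubeSym p s) a l = EE c (fun k => xor (s k) (a (p k))) (p.symm l) := by
  funext t
  simp only [EE, Function.comp, cubeSym_pt]

lemma EE_bot (c : UCube → Ball) (l : Fin 3) : EE c bot l = edge c l := by
  funext t
  simp only [EE, edge, pt_bot]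

lemma edge_comp (c : UCube → Ball) (p : Equiv.Perm (Fin 3)) (s : Fin 3 → Bool) (l : Fin 3) :
    edge (c ∘ cubeSym p s) l = EE c s (p.symm l) := by
  rw [← EE_bot, EE_comp]
  simp [bot]

lemma EE_sq0 (c : UCube → Ball) : EE c (flp 1 bot) 0 = fun t => square c (t, 1) := by
  funext t
  simp only [EE, square]
  congr 1
  funext k
  fin_cases k <;> simp [pt, cubeSym, flp, bot]

lemma EE_sq1 (c : UCube → Ball) : EE c (flp 0 bot) 1 = fun t => square c (1, t) := by
  funext t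
  simp only [EE, square]
  congr 1
  funext k
  fin_cases k <;> simp [pt, cubeSym, flp, bot]

lemma exists_perm : ∀ l m : Fin 3, l ≠ m → ∃ p : Equiv.Perm (Fin 3), p.symm 0 = l ∧ p.symm 1 = m := by
  decide

lemma exists_third : ∀ l m : Fin 3, ∃ n : Fin 3, l ≠ n ∧ m ≠ n := by
  decide

namespace Cubulation

variable {X : Cubulation}

lemma frames_comp {c : UCube → Ball} (hc : c ∈ X.frames) {g : UCube → UCube} (hg : IsSym g) :
    c ∘ g ∈ X.frames := by
  obtain ⟨i, p, s, rfl⟩ := hc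
  obtain ⟨p', s', h⟩ := IsSym.comp ⟨p, s, rfl⟩ hg
  exact ⟨i, p', s', by rw [← h]; rfl⟩

lemma frames_self (i : Fin X.n) : X.φ i ∈ X.frames :=
  ⟨i, Equiv.refl _, fun _ => false, funext fun y => by simp [cubeSym_one]⟩

lemma frames_cont {c : UCube → Ball} (hc : c ∈ X.frames) : Continuous c := by
  obtain ⟨i, p, s, rfl⟩ := hc
  exact (X.cont i).comp (IsSym.cont ⟨p, s, rfl⟩)

lemma frames_inj {c : UCube → Ball} (hc : c ∈ X.frames) {y z : UCube} (h : supp y = supp z)
    (h' : c y = c z) : y = z := by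
  obtain ⟨i, p, s, rfl⟩ := hc
  have hs : IsSym (cubeSym p s) := ⟨p, s, rfl⟩
  obtain ⟨g, -, h1, -⟩ := hs.inv
  rw [← h1 y, X.inj i _ _ (hs.supp_eq h) h', h1]

lemma frames_glue {c c' : UCube → Ball} (hc : c ∈ X.frames) (hc' : c' ∈ X.frames) {y z : UCube}
    (h : c y = c' z) : ∃ g, IsSym g ∧ g y = z ∧ ∀ w ∈ supp y, c' (g w) = c w := by
  obtain ⟨i, p, s, rfl⟩ := hc
  obtain ⟨j, p', s', rfl⟩ := hc'
  have hs : IsSym (cubeSym p s) := ⟨p, s, rfl⟩
  have hs' : IsSym (cubeSym p' s') := ⟨p', s', rfl⟩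
  obtain ⟨g, hg, h1, h2⟩ := hs'.inv
  obtain ⟨q, r, h3, h4⟩ := X.glue i j _ _ h
  refine ⟨g ∘ (cubeSym q r ∘ cubeSym p s), hg.comp (IsSym.comp ⟨q, r, rfl⟩ hs), ?_, fun w hw => ?_⟩
  · simp only [Function.comp, h3, h1]
  · simp only [Function.comp, h2]
    exact h4 _ (hs.supp_mem hw)

lemma glue_unique {c : UCube → Ball} (hc : c ∈ X.frames) {g g' : UCube → UCube} (hg : IsSym g)
    (hg' : IsSym g') {y : UCube} (h : g y = g' y) (h' : ∀ w ∈ supp y, c (g w) = c (g' w)) :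
    ∀ w ∈ supp y, g w = g' w := by
  intro w hw
  have h1 := supp_mid hw
  have h2 : g (mid y w) = g' (mid y w) := by
    refine frames_inj hc ?_ (h' _ (h1 ▸ mem_supp_self _))
    rw [hg.supp_eq h1, hg'.supp_eq h1, h]
  rw [hg.mid, hg'.mid, h] at h2
  exact mid_inj h2

lemma frames_finite : X.frames.Finite := by
  refine (Set.finite_range (fun q : Fin X.n × Equiv.Perm (Fin 3) × (Fin 3 → Bool) =>
    X.φ q.1 ∘ cubeSym q.2.1 q.2.2)).subset ?_
  rintro c ⟨i, p, s, rfl⟩
  exact ⟨(i, p, s), rfl⟩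

variable (X)

/-- oriented edges -/
def Dart : Type := {d : I → Ball // ∃ c ∈ X.frames, ∃ a l, d = EE c a l}

instance : Finite X.Dart := by
  refine Set.Finite.to_subtype (s := {d : I → Ball | ∃ c ∈ X.frames, ∃ a l, d = EE c a l}) ?_
  refine ((X.frames_finite.prod (Set.toFinite (Set.univ : Set ((Fin 3 → Bool) × Fin 3)))).image
    (fun q => EE q.1 q.2.1 q.2.2)).subset ?_
  rintro d ⟨c, hc, a, l, rfl⟩
  exact ⟨(c, a, l), ⟨hc, trivial⟩, rfl⟩

variable {X}

def mkD {c : UCube → Ball} (hc : c ∈ X.frames) (a : Fin 3 → Bool) (l : Fin 3) : X.Dart :=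
  ⟨EE c a l, c, hc, a, l, rfl⟩

def revD (d : X.Dart) : X.Dart := ⟨fun t => d.1 (σ t), by
  obtain ⟨c, hc, a, l, h⟩ := d.2
  exact ⟨c, hc, flp l a, l, by rw [h]; funext t; simp only [EE, pt_symm]⟩⟩

lemma rev_mkD {c : UCube → Ball} (hc : c ∈ X.frames) (a : Fin 3 → Bool) (l : Fin 3) :
    revD (mkD hc a l) = mkD hc (flp l a) l :=
  Subtype.ext (funext fun t => by simp only [revD, mkD, EE, pt_symm])

def SqD (d e d' e' : X.Dart) : Prop := ∃ c, ∃ hc : c ∈ X.frames, ∃ a l m, l ≠ m ∧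
  d = mkD hc a l ∧ e = mkD hc a m ∧ d' = mkD hc (flp m a) l ∧ e' = mkD hc (flp l a) m

lemma sq_mkD {c : UCube → Ball} (hc : c ∈ X.frames) (a : Fin 3 → Bool) {l m : Fin 3}
    (h : l ≠ m) : SqD (mkD hc a l) (mkD hc a m) (mkD hc (flp m a) l) (mkD hc (flp l a) m) :=
  ⟨c, hc, a, l, m, h, rfl, rfl, rfl, rfl⟩

lemma SqD.normal {d e d' e' : X.Dart} (h : SqD d e d' e') : ∃ c, ∃ hc : c ∈ X.frames,
    d = mkD hc bot 0 ∧ e = mkD hc bot 1 ∧ d' = mkD hc (flp 1 bot) 0 ∧
      e' = mkD hc (flp 0 bot) 1 := by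
  obtain ⟨c, hc, a, l, m, hlm, rfl, rfl, rfl, rfl⟩ := h
  obtain ⟨p, rfl, rfl⟩ := exists_perm l m hlm
  refine ⟨c ∘ cubeSym p a, frames_comp hc ⟨p, a, rfl⟩, ?_, ?_, ?_, ?_⟩ <;> apply Subtype.ext <;>
    simp only [mkD, EE_comp, act_flp] <;> simp [bot]

lemma SqD.symm {d e d' e' : X.Dart} (h : SqD d e d' e') : SqD e d e' d' := by
  obtain ⟨c, hc, a, l, m, hlm, rfl, rfl, rfl, rfl⟩ := h
  exact sq_mkD hc a hlm.symm

lemma SqD.ne (F : X.FlagLinks) {d e d' e' : X.Dart} (h : SqD d e d' e') : d ≠ e := by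
  obtain ⟨c, hc, rfl, rfl, -, -⟩ := h.normal
  intro h
  have := congrArg Subtype.val h
  simp only [mkD, EE_bot] at this
  exact F.edges_ne c hc this

lemma SqD.uniq (F : X.FlagLinks) {d e d' e' d'' e'' : X.Dart} (h : SqD d e d' e')
    (h' : SqD d e d'' e'') : d' = d'' ∧ e' = e'' := by
  obtain ⟨c, hc, rfl, rfl, rfl, rfl⟩ := h.normal
  obtain ⟨c', hc', h1, h2, rfl, rfl⟩ := h'.normal
  have h3 := congrArg Subtype.val h1
  have h4 := congrArg Subtype.val h2
  simp only [mkD, EE_bot] at h3 h4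
  have := F.square_eq c hc c' hc' h3 h4
  constructor <;> apply Subtype.ext <;> simp only [mkD, EE_sq0, EE_sq1, this]

lemma flag_darts (F : X.FlagLinks) (T : Set X.Dart) (hT : T.Nontrivial)
    (h : T.Pairwise (fun d e => ∃ d' e', SqD d e d' e')) :
    ∃ c, ∃ hc : c ∈ X.frames, ∀ d ∈ T, ∃ l, d = mkD hc bot l := by
  obtain ⟨c, hc, h1⟩ := F.flag (Subtype.val '' T) (hT.image Subtype.val_injective) (by
    rintro _ ⟨d, hd, rfl⟩ _ ⟨e, he, rfl⟩ hne
    obtain ⟨d', e', h2⟩ := h hd he (fun hh => hne (by rw [hh]))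
    obtain ⟨c, hc, rfl, rfl, -, -⟩ := h2.normal
    exact ⟨c, hc, EE_bot _ _, EE_bot _ _⟩)
  refine ⟨c, hc, fun d hd => ?_⟩
  obtain ⟨l, hl⟩ := h1 ⟨d, hd, rfl⟩
  exact ⟨l, Subtype.ext (by simp only [mkD, EE_bot, hl])⟩

/-- the combinatorial skeleton -/
def cx (F : X.FlagLinks) : Cx X.Dart where
  rev := revD
  Sq := SqD
  rev_rev := fun d => Subtype.ext (funext fun t => by simp [revD])
  sym := SqD.symm
  rot := by
    rintro _ _ _ _ ⟨c, hc, a, l, m, hlm, rfl, rfl, rfl, rfl⟩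
    have := sq_mkD hc (flp l a) hlm
    rw [flp_flp, flp_comm] at this
    rw [rev_mkD, rev_mkD]
    exact this
  ne := SqD.ne F
  uniq := SqD.uniq F
  cube := by
    intro d e f d1 e1 d2 f1 e2 f2 h1 h2 h3
    obtain ⟨c, hc, h⟩ := flag_darts F {d, e, f} ⟨d, by simp, e, by simp, h1.ne F⟩ (by
      intro x hx y hy hxy
      simp only [Set.mem_insert_iff, Set.mem_singleton_iff] at hx hy
      rcases hx with rfl | rfl | rfl <;> rcases hy with rfl | rfl | rfl <;>
        first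
        | exact absurd rfl hxy
        | exact ⟨_, _, h1⟩
        | exact ⟨_, _, h2⟩
        | exact ⟨_, _, h3⟩
        | exact ⟨_, _, h1.symm⟩
        | exact ⟨_, _, h2.symm⟩
        | exact ⟨_, _, h3.symm⟩)
    obtain ⟨l, rfl⟩ := h d (by simp)
    obtain ⟨m, rfl⟩ := h e (by simp)
    obtain ⟨n, rfl⟩ := h f (by simp)
    have lm : l ≠ m := fun hh => h1.ne F (by rw [hh])
    have ln : l ≠ n := fun hh => h2.ne F (by rw [hh])
    have mn : m ≠ n := fun hh => h3.ne F (by rw [hh])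
    obtain ⟨rfl, rfl⟩ := h1.uniq F (sq_mkD hc bot lm)
    obtain ⟨rfl, rfl⟩ := h2.uniq F (sq_mkD hc bot ln)
    obtain ⟨rfl, rfl⟩ := h3.uniq F (sq_mkD hc bot mn)
    refine ⟨mkD hc (flp n (flp m bot)) l, _, _, sq_mkD hc (flp l bot) mn, ?_, ?_⟩
    · rw [flp_comm m l]
      exact sq_mkD hc (flp m bot) ln
    · rw [flp_comm n m, flp_comm n l]
      exact sq_mkD hc (flp n bot) lm

lemma no4 (F : X.FlagLinks) (a b c d : X.Dart) (h1 : ∃ x y, SqD a b x y) (h2 : ∃ x y, SqD a c x y)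
    (h3 : ∃ x y, SqD a d x y) (h4 : ∃ x y, SqD b c x y) (h5 : ∃ x y, SqD b d x y)
    (h6 : ∃ x y, SqD c d x y) : False := by
  obtain ⟨_, _, h1⟩ := h1
  obtain ⟨_, _, h2⟩ := h2
  obtain ⟨_, _, h3⟩ := h3
  obtain ⟨_, _, h4⟩ := h4
  obtain ⟨_, _, h5⟩ := h5
  obtain ⟨_, _, h6⟩ := h6
  obtain ⟨f, hf, h⟩ := flag_darts F {a, b, c, d} ⟨a, by simp, b, by simp, h1.ne F⟩ (by
    intro x hx y hy hxy
    simp only [Set.mem_insert_iff, Set.mem_singleton_iff] at hx hy
    rcases hx with rfl | rfl | rfl | rfl <;> rcases hy with rfl | rfl | rfl | rfl <;>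
      first
      | exact absurd rfl hxy
      | exact ⟨_, _, h1⟩
      | exact ⟨_, _, h2⟩
      | exact ⟨_, _, h3⟩
      | exact ⟨_, _, h4⟩
      | exact ⟨_, _, h5⟩
      | exact ⟨_, _, h6⟩
      | exact ⟨_, _, h1.symm⟩
      | exact ⟨_, _, h2.symm⟩
      | exact ⟨_, _, h3.symm⟩
      | exact ⟨_, _, h4.symm⟩
      | exact ⟨_, _, h5.symm⟩
      | exact ⟨_, _, h6.symm⟩)
  obtain ⟨i, rfl⟩ := h a (by simp)
  obtain ⟨j, rfl⟩ := h b (by simp)
  obtain ⟨k, rfl⟩ := h c (by simp)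
  obtain ⟨l, rfl⟩ := h d (by simp)
  have e1 : i ≠ j := fun hh => h1.ne F (by rw [hh])
  have e2 : i ≠ k := fun hh => h2.ne F (by rw [hh])
  have e3 : i ≠ l := fun hh => h3.ne F (by rw [hh])
  have e4 : j ≠ k := fun hh => h4.ne F (by rw [hh])
  have e5 : j ≠ l := fun hh => h5.ne F (by rw [hh])
  have e6 : k ≠ l := fun hh => h6.ne F (by rw [hh])
  omega

lemma pure (d e : X.Dart) (h : ∃ x y, SqD d e x y) :
    ∃ f, (∃ x y, SqD d f x y) ∧ ∃ x y, SqD e f x y := by
  obtain ⟨_, _, c, hc, a, l, m, -, rfl, rfl, -, -⟩ := h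
  obtain ⟨n, h1, h2⟩ := exists_third l m
  exact ⟨mkD hc a n, ⟨_, _, sq_mkD hc a h1⟩, ⟨_, _, sq_mkD hc a h2⟩⟩

variable (X)

/-- vertices -/
def Vert : Type := {x : Ball // ∃ d : X.Dart, d.1 0 = x}

variable {X}

def srcD (d : X.Dart) : X.Vert := ⟨d.1 0, d, rfl⟩

lemma src_mkD {c : UCube → Ball} (hc : c ∈ X.frames) (a : Fin 3 → Bool) (l : Fin 3) :
    (srcD (mkD hc a l)).1 = c (cor a) := by
  simp only [srcD, mkD, EE, pt_zero]

lemma SqD.s1 {d e d' e' : X.Dart} (h : SqD d e d' e') : srcD d = srcD e := by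
  obtain ⟨c, hc, a, l, m, -, rfl, rfl, -, -⟩ := h
  exact Subtype.ext (by rw [src_mkD, src_mkD])

lemma SqD.s2 {d e d' e' : X.Dart} (h : SqD d e d' e') : srcD d' = srcD (revD e) := by
  obtain ⟨c, hc, a, l, m, -, -, rfl, rfl, -⟩ := h
  exact Subtype.ext (by rw [rev_mkD, src_mkD, src_mkD])

lemma dart_eq (d : X.Dart) : ∃ j a l, d = mkD (frames_self j) a l := by
  obtain ⟨_, _, ⟨j, p, s, rfl⟩, a, l, rfl⟩ := d
  exact ⟨j, _, _, Subtype.ext (EE_comp _ p s a l)⟩

lemma isOpen_of_pre {W : Set Ball} (h : ∀ j, IsOpen (X.φ j ⁻¹' W)) : IsOpen W := by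
  have : Wᶜ = ⋃ j, X.φ j '' (X.φ j ⁻¹' W)ᶜ := by
    ext x
    simp only [Set.mem_compl_iff, Set.mem_iUnion, Set.mem_image, Set.mem_preimage]
    constructor
    · intro hx
      obtain ⟨j, y, rfl⟩ := X.surj x
      exact ⟨j, y, hx, rfl⟩
    · rintro ⟨j, y, hy, rfl⟩
      exact hy
  rw [← isClosed_compl_iff, this]
  exact isClosed_iUnion_of_finite fun j =>
    ((h j).isClosed_compl.isCompact.image (X.cont j)).isClosed

end Cubulation

end Pool.Agent.H294Z.Cube
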