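import Pool.Agent.H294Z.Cube.Frames
import Pool.Agent.Helper514.IoD

set_option autoImplicit false

namespace Pool.Agent.H294Z.Cube

open unitInterval Topology Filter

lemma IsSym.bd {g : UCube → UCube} (h : IsSym g) {w : UCube} {k : Fin 3}
    (hk : g w k = 0 ∨ g w k = 1) : ∃ j, w j = 0 ∨ w j = 1 := by
  obtain ⟨p, s, rfl⟩ := h
  refine ⟨p k, ?_⟩
  unfold cubeSym at hk
  split_ifs at hk
  · simp only [symm_eq_zero, symm_eq_one] at hk
    exact hk.symm
  · exact hk

namespace Cubulation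

variable {X : Cubulation}

lemma free_inner {c : UCube → Ball} (hc : c ∈ X.frames)
    (hfree : ∀ c' ∈ X.frames, edge c' 0 = edge c 0 → edge c' 1 = edge c 1 → c' = c)
    (s t : I) (hs0 : s ≠ 0) (hs1 : s ≠ 1) (ht0 : t ≠ 0) (ht1 : t ≠ 1) :
    ‖(c ![s, t, 0] : EuclideanSpace ℝ (Fin 3))‖ = 1 := by
  classical
  set y0 : UCube := ![s, t, 0] with hy0
  by_contra hne
  have hlt : ‖(c y0 : EuclideanSpace ℝ (Fin 3))‖ < 1 :=
    lt_of_le_of_ne (mem_closedBall_zero_iff.1 (c y0).2) hne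
  let N : Set UCube := {w | w 0 ≠ 0 ∧ w 0 ≠ 1 ∧ w 1 ≠ 0 ∧ w 1 ≠ 1 ∧ w 2 ≠ 1}
  have hN : IsOpen N := by
    have h : ∀ (k : Fin 3) (e : I), IsOpen {w : UCube | w k ≠ e} := fun k e =>
      isOpen_ne_fun (continuous_apply k) continuous_const
    exact (h 0 0).inter ((h 0 1).inter ((h 1 0).inter ((h 1 1).inter (h 2 1))))
  have hy0N : y0 ∈ N := ⟨hs0, hs1, ht0, ht1, by simp [hy0]⟩
  have bdN : ∀ w ∈ N, ∀ k, (w k = 0 ∨ w k = 1) → k = 2 ∧ w 2 = 0 := by
    rintro w ⟨a1, a2, a3, a4, a5⟩ k hk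
    fin_cases k <;> simp_all
  have z2 : ∀ w ∈ N, ∀ w' ∈ N, c w = c w' → w ∈ supp w' := by
    intro w hw w' hw' e k hk
    obtain ⟨g, hg, h1, -⟩ := frames_glue hc hc e
    obtain ⟨rfl, h2⟩ := bdN w' hw' k hk
    rw [← h1] at hk
    obtain ⟨j, hj⟩ := hg.bd hk
    rw [h2, (bdN w hw j hj).2]
  have hinj : Set.InjOn c N := fun w hw w' hw' e =>
    frames_inj hc (supp_eq (z2 w hw w' hw' e) (z2 w' hw' w hw e.symm)) e
  obtain ⟨K, hK1, hK2, hK3⟩ := local_compact_nhds (hN.mem_nhds hy0N)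
  let B : Set Ball := ⋃ j, X.φ j ''
    {z | ∀ p s, X.φ j = c ∘ cubeSym p s → cubeSym p s z ∉ interior K}
  have hB : IsClosed B := by
    refine isClosed_iUnion_of_finite fun j => (IsClosed.isCompact ?_).image (X.cont j) |>.isClosed
    simp only [Set.ofPred_forall]
    exact isClosed_iInter fun p => isClosed_iInter fun s => isClosed_iInter fun _ =>
      (isOpen_interior.preimage (IsSym.cont ⟨p, s, rfl⟩)).isClosed_compl
  have hx : c y0 ∉ B := by
    intro hx
    obtain ⟨j, z, hz, e⟩ := Set.mem_iUnion.1 hx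
    obtain ⟨g, hg, h1, h2⟩ := frames_glue hc (frames_self j) e.symm
    have m : ∀ l : Fin 3, l ≠ 2 → ∀ u : I, (Pi.single l u : UCube) ∈ supp y0 := by
      intro l hl u k hk
      obtain ⟨rfl, h3⟩ := bdN y0 hy0N k hk
      rw [h3, Pi.single_eq_of_ne hl.symm]
    have h3 := hfree _ (frames_comp (frames_self j) hg)
      (funext fun u => h2 _ (m 0 (by decide) u)) (funext fun u => h2 _ (m 1 (by decide) u))
    obtain ⟨_, ⟨p, r, rfl⟩, h4, h5⟩ := hg.inv
    refine hz p r (funext fun w => ?_) ?_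
    · rw [← h3]
      simp only [Function.comp, h5]
    · rw [← h1, h4]
      exact mem_interior_iff_mem_nhds.2 hK1
  obtain ⟨T, hT, hTB⟩ := isOpen_induced_iff.1 hB.isOpen_compl
  have hxT : (c y0 : EuclideanSpace ℝ (Fin 3)) ∈ T ∩ Metric.ball 0 1 :=
    ⟨by
      have : c y0 ∈ Subtype.val ⁻¹' T := by
        rw [hTB]
        exact hx
      exact this, mem_ball_zero_iff.2 hlt⟩
  obtain ⟨r, hr, hrT⟩ := Metric.nhds_basis_closedBall.mem_iff.1
    ((hT.inter Metric.isOpen_ball).mem_nhds hxT)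
  let cE : UCube → EuclideanSpace ℝ (Fin 3) := fun w => c w
  have cEc : Continuous cE := continuous_subtype_val.comp (frames_cont hc)
  have hcov : ∀ p ∈ Metric.closedBall (cE y0) r, ∃ w ∈ K, cE w = p := by
    intro p hp
    have h1 := hrT hp
    have h2 : (⟨p, Metric.ball_subset_closedBall h1.2⟩ : Ball) ∈ Bᶜ := by
      rw [← hTB]
      exact h1.1
    obtain ⟨j, z, e⟩ := X.surj ⟨p, Metric.ball_subset_closedBall h1.2⟩
    by_contra hn
    refine h2 (Set.mem_iUnion.2 ⟨j, z, fun q u h3 h4 => hn ⟨_, interior_subset h4, ?_⟩, e⟩)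
    rw [h3] at e
    exact congrArg Subtype.val e
  let toE : UCube → EuclideanSpace ℝ (Fin 3) := fun w => WithLp.toLp 2 (fun k => (w k : ℝ))
  have toEc : Continuous toE := by
    refine (PiLp.continuous_toLp 2 _).comp (continuous_pi fun k => ?_)
    exact continuous_subtype_val.comp (continuous_apply k)
  have toEi : Function.Injective toE := by
    intro w w' e
    funext k
    exact Subtype.ext (congrArg (fun v : EuclideanSpace ℝ (Fin 3) => v k) e)
  let iv : EuclideanSpace ℝ (Fin 3) → UCube := Function.invFunOn cE K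
  have iv1 : ∀ p ∈ Metric.closedBall (cE y0) r, iv p ∈ K ∧ cE (iv p) = p := fun p hp =>
    Function.invFunOn_pos (hcov p hp)
  have iv2 : ∀ w ∈ K, cE w ∈ Metric.closedBall (cE y0) r → iv (cE w) = w := fun w hw hp =>
    hinj (hK2 (iv1 _ hp).1) (hK2 hw) (Subtype.ext (iv1 _ hp).2)
  have ivc : ContinuousOn iv (Metric.closedBall (cE y0) r) := by
    refine continuousOn_iff_isClosed.2 fun A hA => ⟨cE '' (K ∩ A),
      ((hK3.inter_right hA).image cEc).isClosed, ?_⟩
    ext p
    constructor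
    · rintro ⟨h1, h2⟩
      exact ⟨⟨iv p, ⟨(iv1 p h2).1, h1⟩, (iv1 p h2).2⟩, h2⟩
    · rintro ⟨⟨w, ⟨h1, h2⟩, rfl⟩, h3⟩
      exact ⟨by rw [Set.mem_preimage, iv2 w h1 h3]; exact h2, h3⟩
  have key := Pool.Agent.Helper514.IoD.image_mem_nhds (fun p => toE (iv p)) (cE y0) r hr
    (toEc.comp_continuousOn ivc) (fun p hp p' hp' e => by
      rw [← (iv1 p hp).2, toEi e, (iv1 p' hp').2])
  rw [iv2 y0 (mem_of_mem_nhds hK1) (Metric.mem_closedBall_self hr.le)] at key
  obtain ⟨ε, hε, hsub⟩ := Metric.nhds_basis_closedBall.mem_iff.1 key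
  obtain ⟨p, -, hp⟩ := hsub (show toE y0 - EuclideanSpace.single 2 ε ∈ Metric.closedBall (toE y0) ε by
    rw [mem_closedBall_iff_norm]
    simp [abs_of_pos hε])
  have h1 := congrArg (fun v : EuclideanSpace ℝ (Fin 3) => v 2) hp
  have h2 := (iv p 2).2.1
  simp [toE, hy0] at h1
  linarith

theorem free_sphere {c : UCube → Ball} (hc : c ∈ X.frames)
    (hfree : ∀ c' ∈ X.frames, edge c' 0 = edge c 0 → edge c' 1 = edge c 1 → c' = c) :
    ∀ x ∈ Set.range (square c), ‖(x : EuclideanSpace ℝ (Fin 3))‖ = 1 := by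
  rintro _ ⟨q, rfl⟩
  have hd : Dense ({u : I | u ≠ 0 ∧ u ≠ 1}) := by
    exact (dense_compl_singleton (0 : I)).sdiff_singleton 1
  have hcont : Continuous (fun q : I × I => ‖(square c q : EuclideanSpace ℝ (Fin 3))‖) := by
    refine continuous_norm.comp (continuous_subtype_val.comp ((frames_cont hc).comp ?_))
    refine continuous_pi fun k => ?_
    fin_cases k
    · exact continuous_fst
    · exact continuous_snd
    · exact continuous_const
  have := Continuous.ext_on (hd.prod hd) hcont (continuous_const (y := (1 : ℝ)))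
    (fun q hq => free_inner hc hfree q.1 q.2 hq.1.1 hq.1.2 hq.2.1 hq.2.2)
  exact congrFun this q

/-- two framed squares with the same image differ by a symmetry of the square -/
lemma square_image {c c' : UCube → Ball} (hc : c ∈ X.frames) (hc' : c' ∈ X.frames)
    (h : Set.range (square c) = Set.range (square c')) :
    ∃ a l m, a 2 = false ∧ l ≠ 2 ∧ m ≠ 2 ∧ mkD hc bot 0 = mkD hc' a l ∧
      mkD hc bot 1 = mkD hc' a m := by
  let hf : I := ⟨1 / 2, by norm_num⟩
  have h0 : hf ≠ 0 := fun e => by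
    have := congrArg Subtype.val e
    norm_num [hf] at this
  have h1 : hf ≠ 1 := fun e => by
    have := congrArg Subtype.val e
    norm_num [hf] at this
  obtain ⟨q, hq⟩ : square c (hf, hf) ∈ Set.range (square c') := h ▸ Set.mem_range_self _
  obtain ⟨_, ⟨p, s, rfl⟩, k1, k2⟩ := frames_glue hc hc' hq.symm
  have bd : ∀ k : Fin 3, ((![hf, hf, 0] : UCube) k = 0 ∨ (![hf, hf, 0] : UCube) k = 1) → k = 2 := by
    intro k hk
    fin_cases k <;> simp_all
  have k3 := congrFun k1 2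
  simp only [cubeSym, Matrix.cons_val] at k3
  have k4 : p 2 = 2 := by
    apply bd
    split_ifs at k3
    · exact Or.inr (symm_eq_zero.1 k3)
    · exact Or.inl k3
  have k5 : s 2 = false := by
    rw [k4] at k3
    by_contra hh
    simp [hh] at k3
  have m : ∀ l : Fin 3, l ≠ 2 → p.symm l ≠ 2 ∧ mkD hc bot l = mkD hc' s (p.symm l) := by
    intro l hl
    refine ⟨fun e => hl (by rw [← k4, ← e]; simp), Subtype.ext ?_⟩
    simp only [mkD]
    rw [← edge_comp, EE_bot]
    funext u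
    refine (k2 _ fun k hk => ?_).symm
    rw [bd k hk, Pi.single_eq_of_ne hl.symm]
    rfl
  exact ⟨s, _, _, k5, (m 0 (by decide)).1, (m 1 (by decide)).1, (m 0 (by decide)).2,
    (m 1 (by decide)).2⟩

end Cubulation

end Pool.Agent.H294Z.Cube
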