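import Pool.Agent.H294Z.Cube.Defs

set_option autoImplicit false

namespace Pool.Agent.H294Z.Cube

open Finset

section Graph

variable {H : Type} [DecidableEq H] (G : SimpleGraph H)

open Classical in
/-- number of `n`-cliques inside `A` -/
noncomputable def cq (n : ℕ) (A : Finset H) : ℕ :=
  ((A.powersetCard n).filter (fun s : Finset H => G.IsClique (s : Set H))).card

open Classical in
noncomputable def nb (z : H) (A : Finset H) : Finset H := A.filter (G.Adj z)

lemma cq_mono (n : ℕ) {A B : Finset H} (h : A ⊆ B) : cq G n A ≤ cq G n B := by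
  classical
  unfold cq
  exact card_le_card (filter_subset_filter _ (powersetCard_mono h))

lemma cq_one (A : Finset H) : cq G 1 A = A.card := by
  classical
  unfold cq
  rw [filter_true_of_mem, card_powersetCard, Nat.choose_one_right]
  intro s hs
  obtain ⟨a, rfl⟩ := card_eq_one.1 (mem_powersetCard.1 hs).2
  simp

lemma cq_insert (n : ℕ) {z : H} {A : Finset H} (hz : z ∉ A) :
    cq G (n + 1) (insert z A) = cq G (n + 1) A + cq G n (nb G z A) := by
  classical
  unfold cq
  rw [powersetCard_succ_insert hz, filter_union, card_union_of_disjoint]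
  · congr 1
    symm
    refine card_bij (fun s _ => insert z s) ?_ ?_ ?_
    · intro s hs
      simp only [mem_filter, mem_powersetCard, nb] at hs
      simp only [mem_filter, mem_image, mem_powersetCard]
      refine ⟨⟨s, ⟨hs.1.1.trans (filter_subset _ _), hs.1.2⟩, rfl⟩, ?_⟩
      rw [coe_insert]
      exact hs.2.insert (fun y hy _ => (mem_filter.1 (hs.1.1 hy)).2)
    · intro s hs t ht h
      simp only [mem_filter, mem_powersetCard, nb] at hs ht
      have h1 : z ∉ s := fun hh => hz (mem_filter.1 (hs.1.1 hh)).1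
      have h2 : z ∉ t := fun hh => hz (mem_filter.1 (ht.1.1 hh)).1
      rw [← erase_insert h1, h, erase_insert h2]
    · intro t ht
      simp only [mem_filter, mem_image, mem_powersetCard] at ht
      obtain ⟨⟨s, ⟨hs1, hs2⟩, rfl⟩, hc⟩ := ht
      rw [coe_insert] at hc
      refine ⟨s, ?_, rfl⟩
      simp only [mem_filter, mem_powersetCard, nb]
      refine ⟨⟨fun y hy => mem_filter.2 ⟨hs1 hy, ?_⟩, hs2⟩, hc.subset (Set.subset_insert _ _)⟩
      refine hc (Set.mem_insert _ _) (Set.mem_insert_of_mem _ hy) ?_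
      rintro rfl
      exact hz (hs1 hy)
  · refine disjoint_filter_filter ?_
    rw [disjoint_left]
    intro s hs ht
    obtain ⟨t, -, rfl⟩ := mem_image.1 ht
    exact hz ((mem_powersetCard.1 hs).1 (mem_insert_self _ _))

lemma mantel (n : ℕ) : ∀ A : Finset H, A.card = n →
    (∀ x ∈ A, ∀ y ∈ A, ∀ z ∈ A, G.Adj x y → G.Adj x z → G.Adj y z → False) →
    4 * cq G 2 A ≤ n ^ 2 := by
  classical
  induction n using Nat.strong_induction_on with
  | _ n ih =>
    intro A hA h3
    by_cases h0 : cq G 2 A = 0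
    · simp [h0]
    obtain ⟨s, hs⟩ := card_ne_zero.1 h0
    simp only [mem_filter, mem_powersetCard] at hs
    obtain ⟨x, y, hxy, rfl⟩ := card_eq_two.1 hs.1.2
    have hx : x ∈ A := hs.1.1 (by simp)
    have hy : y ∈ A := hs.1.1 (by simp)
    have hadj : G.Adj x y := hs.2 (by simp) (by simp) hxy
    set B := (A.erase x).erase y with hB
    have hyB : y ∉ B := by simp [hB]
    have hxB : x ∉ insert y B := by simp [hB, hxy]
    have hAB : A = insert x (insert y B) := by
      rw [hB, insert_erase (mem_erase.2 ⟨hxy.symm, hy⟩), insert_erase hx]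
    have hsub : B ⊆ A := (erase_subset _ _).trans (erase_subset _ _)
    have hcard : n = B.card + 2 := by
      rw [← hA, hAB, card_insert_of_notMem hxB, card_insert_of_notMem hyB]
    have h1 := ih B.card (by omega) B rfl
      (fun a ha b hb c hc => h3 a (hsub ha) b (hsub hb) c (hsub hc))
    have h2 : cq G 2 A = cq G 2 B + (nb G y B).card + (nb G x (insert y B)).card := by
      rw [hAB, cq_insert G 1 hxB, cq_insert G 1 hyB, cq_one, cq_one]
    have h4 : (nb G x (insert y B)).card ≤ (nb G x B).card + 1 := by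
      refine le_trans (card_le_card ?_) (card_insert_le y _)
      intro a ha
      simp only [nb, mem_filter, mem_insert] at ha ⊢
      tauto
    have h5 : (nb G y B).card + (nb G x B).card ≤ B.card := by
      rw [← card_union_of_disjoint]
      · exact card_le_card (union_subset (filter_subset _ _) (filter_subset _ _))
      · rw [disjoint_left]
        intro a ha hb
        simp only [nb, mem_filter] at ha hb
        exact h3 x hx y hy a (hsub ha.1) hadj hb.2 ha.2
    rw [hcard]
    nlinarith

lemma layers [Fintype H] (h4 : G.CliqueFree 4) :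
    ∃ (b : ℕ) (L : Multiset (ℕ × ℕ)), (∀ p ∈ L, 4 * p.2 ≤ p.1 ^ 2 ∧ p.2 ≤ b) ∧
      b + (L.map Prod.fst).sum ≤ cq G 2 univ ∧ cq G 3 univ ≤ (L.map Prod.snd).sum := by
  classical
  have tf : ∀ z (A : Finset H), ∀ x ∈ nb G z A, ∀ y ∈ nb G z A, ∀ w ∈ nb G z A,
      G.Adj x y → G.Adj x w → G.Adj y w → False := by
    intro z A x hx y hy w hw a1 a2 a3
    simp only [nb, mem_filter] at hx hy hw
    have h3 : G.IsNClique 3 {x, y, w} := SimpleGraph.is3Clique_triple_iff.2 ⟨a1, a2, a3⟩
    refine h4 _ (h3.insert (a := z) ?_)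
    intro b hb
    simp only [mem_insert, mem_singleton] at hb
    rcases hb with rfl | rfl | rfl
    · exact hx.2
    · exact hy.2
    · exact hw.2
  obtain ⟨N, hN, hmax⟩ : ∃ N : Finset H, cq G 3 N = 0 ∧ ∀ z, cq G 2 (nb G z univ) ≤ cq G 2 N := by
    rcases isEmpty_or_nonempty H with hH | hH
    · exact ⟨∅, by unfold cq; rw [powersetCard_eq_empty.2 (by simp)]; rfl, fun z => hH.elim z⟩
    · obtain ⟨v, hv⟩ := Finite.exists_max (fun z => cq G 2 (nb G z univ))
      refine ⟨nb G v univ, ?_, hv⟩
      unfold cq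
      rw [card_eq_zero, filter_eq_empty_iff]
      intro s hs hc
      obtain ⟨x, y, w, h1, h2, h3, rfl⟩ := card_eq_three.1 (mem_powersetCard.1 hs).2
      have hsub := (mem_powersetCard.1 hs).1
      exact tf v univ x (hsub (by simp)) y (hsub (by simp)) w (hsub (by simp))
        (hc (by simp) (by simp) h1) (hc (by simp) (by simp) h2) (hc (by simp) (by simp) h3)
  have main : ∀ W : Finset H, ∃ L : Multiset (ℕ × ℕ),
      (∀ p ∈ L, 4 * p.2 ≤ p.1 ^ 2 ∧ p.2 ≤ cq G 2 N) ∧
      cq G 2 N + (L.map Prod.fst).sum ≤ cq G 2 (W ∪ N) ∧ cq G 3 (W ∪ N) ≤ (L.map Prod.snd).sum := by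
    intro W
    induction W using Finset.induction_on with
    | empty => exact ⟨0, by simp, by simp, by simp [hN]⟩
    | insert z W _ ih =>
      obtain ⟨L, h1, h2, h3⟩ := ih
      by_cases hz : z ∈ W ∪ N
      · rw [insert_union, insert_eq_of_mem hz]
        exact ⟨L, h1, h2, h3⟩
      · have e1 : cq G 2 (insert z (W ∪ N)) = cq G 2 (W ∪ N) + cq G 1 (nb G z (W ∪ N)) :=
          cq_insert G 1 hz
        have e2 : cq G 3 (insert z (W ∪ N)) = cq G 3 (W ∪ N) + cq G 2 (nb G z (W ∪ N)) :=
          cq_insert G 2 hz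
        rw [insert_union, e1, e2, cq_one]
        refine ⟨((nb G z (W ∪ N)).card, cq G 2 (nb G z (W ∪ N))) ::ₘ L, ?_, ?_, ?_⟩
        · intro p hp
          rcases Multiset.mem_cons.1 hp with rfl | hp
          · refine ⟨mantel G _ _ rfl (tf z _), le_trans (cq_mono G 2 ?_) (hmax z)⟩
            exact filter_subset_filter _ (subset_univ _)
          · exact h1 p hp
        · simp only [Multiset.map_cons, Multiset.sum_cons]
          omega
        · simp only [Multiset.map_cons, Multiset.sum_cons]
          omega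
  obtain ⟨L, h1, h2, h3⟩ := main univ
  rw [show (univ : Finset H) ∪ N = univ by simp] at h2 h3
  exact ⟨_, L, h1, h2, h3⟩

end Graph

lemma shrink (b : ℕ) (L : Multiset (ℕ × ℕ)) : ∀ t, (∀ p ∈ L, 4 * p.2 ≤ p.1 ^ 2 ∧ p.2 ≤ b) →
    t ≤ (L.map Prod.snd).sum → ∃ L' : Multiset (ℕ × ℕ), (∀ p ∈ L', 4 * p.2 ≤ p.1 ^ 2 ∧ p.2 ≤ b) ∧
      (L'.map Prod.fst).sum = (L.map Prod.fst).sum ∧ (L'.map Prod.snd).sum = t := by
  induction L using Multiset.induction_on with
  | empty =>
    intro t _ ht
    exact ⟨0, by simp, rfl, by simpa using (by simpa using ht : t = 0).symm⟩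
  | cons p L ih =>
    intro t h ht
    simp only [Multiset.map_cons, Multiset.sum_cons] at ht
    obtain ⟨L', h1, h2, h3⟩ := ih (t - p.2) (fun q hq => h q (Multiset.mem_cons_of_mem hq))
      (by omega)
    have hp := h p (Multiset.mem_cons_self _ _)
    refine ⟨(p.1, min p.2 t) ::ₘ L', ?_, ?_, ?_⟩
    · intro q hq
      rcases Multiset.mem_cons.1 hq with rfl | hq
      · simp only
        omega
      · exact h1 q hq
    · simp only [Multiset.map_cons, Multiset.sum_cons, h2]
    · simp only [Multiset.map_cons, Multiset.sum_cons, h3]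
      omega

/-- number of layers containing cell `n` -/
def ht (L : Multiset (ℕ × ℕ)) (n : ℕ) : ℕ := (L.map (fun p => if n < p.2 then 1 else 0)).sum

lemma ht_anti (L : Multiset (ℕ × ℕ)) {m n : ℕ} (h : m ≤ n) : ht L n ≤ ht L m := by
  unfold ht
  refine Multiset.sum_map_le_sum_map _ _ (fun p _ => ?_)
  split_ifs <;> omega

lemma sum_ht (L : Multiset (ℕ × ℕ)) (B : ℕ) (f : ℕ → ℕ) :
    ∑ c ∈ range B, ht L (f c) =
      (L.map (fun p => ((range B).filter (fun c => f c < p.2)).card)).sum := by
  induction L using Multiset.induction_on with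
  | empty => simp [ht]
  | cons p L ih =>
    simp only [ht, Multiset.map_cons, Multiset.sum_cons] at ih ⊢
    rw [sum_add_distrib, ih, card_filter]

lemma ht_pos {L : Multiset (ℕ × ℕ)} {b n : ℕ} (h : ∀ p ∈ L, p.2 ≤ b) (hn : 0 < ht L n) :
    n < b := by
  by_contra hh
  have : ht L n = 0 := by
    unfold ht
    refine Multiset.sum_eq_zero ?_
    intro x hx
    obtain ⟨p, hp, rfl⟩ := Multiset.mem_map.1 hx
    have := h p hp
    rw [if_neg (by omega)]
  omega

lemma pair_mono {a c a' c' : ℕ} (h1 : a ≤ a') (h2 : c ≤ c') : Nat.pair a c ≤ Nat.pair a' c' := by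
  have k1 : Nat.pair a c ≤ Nat.pair a' c := by
    rcases h1.eq_or_lt with rfl | h
    · exact le_rfl
    · exact (Nat.pair_lt_pair_left c h).le
  have k2 : Nat.pair a' c ≤ Nat.pair a' c' := by
    rcases h2.eq_or_lt with rfl | h
    · exact le_rfl
    · exact (Nat.pair_lt_pair_right a' h).le
  exact k1.trans k2

lemma bdry_down (S : Finset (Fin 3 → ℤ)) (h0 : ∀ p ∈ S, 0 ≤ p)
    (hd : ∀ p ∈ S, ∀ q, 0 ≤ q → q ≤ p → q ∈ S) :
    (latticeBoundary S).encard ≤ ((2 * ∑ k, (S.filter (fun p => p k = 0)).card : ℕ) : ℕ∞) := by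
  classical
  let T : Finset (Σ _ : Fin 3, Fin 3 → ℤ) := univ.sigma (fun k => S.filter (fun p => p k = 0))
  have hT : (T ×ˢ (univ : Finset Bool)).card = 2 * ∑ k, (S.filter (fun p => p k = 0)).card := by
    rw [card_product, card_sigma, mul_comm]
    simp
  rw [← hT, ← Set.encard_coe_eq_coe_finsetCard]
  have sub : ∀ (a : Fin 3 → ℤ) (k j : Fin 3), (a - Pi.single k (1 : ℤ) : Fin 3 → ℤ) j =
      a j - if j = k then 1 else 0 := by
    intro a k j
    simp [Pi.single_apply]
  refine Set.encard_le_encard_of_injOn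
    (f := fun q => (⟨q.2, Function.update q.1 q.2 0⟩, decide (q.1 ∈ S))) ?_ ?_
  · rintro ⟨a, k⟩ hq
    simp only [coe_product, Set.mem_prod, mem_coe, T, mem_sigma, mem_univ, mem_filter, true_and,
      Function.update_self, and_true]
    rcases hq with ⟨h1, -⟩ | ⟨-, h1⟩
    · refine hd a h1 _ (fun j => ?_) (fun j => ?_) <;> have := h0 a h1 j <;>
        by_cases hj : j = k <;> simp_all
    · refine hd _ h1 _ (fun j => ?_) (fun j => ?_) <;> have := h0 _ h1 j <;> rw [sub] at this <;>
        by_cases hj : j = k <;> simp_all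
  · rintro ⟨a, k⟩ hq ⟨a', k'⟩ hq' h
    simp only [Prod.mk.injEq, Sigma.mk.injEq, heq_eq_eq, decide_eq_decide] at h
    obtain ⟨⟨rfl, h1⟩, h2⟩ := h
    have h3 : ∀ j, j ≠ k → a j = a' j := fun j hj => by
      have := congrFun h1 j
      simpa [hj] using this
    have zero : ∀ a : Fin 3 → ℤ, a ∈ S → a - Pi.single k 1 ∉ S → a k = 0 := by
      intro a h1 h2
      by_contra hne
      refine h2 (hd a h1 _ (fun j => ?_) (fun j => ?_))
      · have : 0 ≤ a j := h0 a h1 j
        show 0 ≤ (a - Pi.single k (1 : ℤ) : Fin 3 → ℤ) j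
        rw [sub]
        split_ifs with hj
        · subst hj
          omega
        · omega
      · show (a - Pi.single k (1 : ℤ) : Fin 3 → ℤ) j ≤ a j
        rw [sub]
        split_ifs <;> omega
    have top : ∀ a a' : Fin 3 → ℤ, (∀ j, j ≠ k → a j = a' j) → a ∉ S → a - Pi.single k 1 ∈ S →
        a' - Pi.single k 1 ∈ S → a' k ≤ a k := by
      intro a a' h3 h1 h2 h4
      by_contra hne
      refine h1 (hd _ h4 _ (fun j => ?_) (fun j => ?_))
      · have : 0 ≤ (a - Pi.single k (1 : ℤ) : Fin 3 → ℤ) j := h0 _ h2 j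
        rw [sub] at this
        show 0 ≤ a j
        split_ifs at this <;> omega
      · show a j ≤ (a' - Pi.single k (1 : ℤ) : Fin 3 → ℤ) j
        rw [sub]
        split_ifs with hj
        · subst hj
          omega
        · have := h3 j hj
          omega
    have hk : a k = a' k := by
      rcases hq with ⟨h4, h5⟩ | ⟨h4, h5⟩ <;> rcases hq' with ⟨h6, h7⟩ | ⟨h6, h7⟩
      · rw [zero a h4 h5, zero a' h6 h7]
      · exact absurd (h2.1 h4) h6
      · exact absurd (h2.2 h6) h4
      · exact le_antisymm (top a' a (fun j hj => (h3 j hj).symm) h6 h7 h5) (top a a' h3 h4 h5 h7)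
    refine Prod.ext (funext fun j => ?_) rfl
    by_cases hj : j = k
    · rw [hj]
      exact hk
    · exact h3 j hj

lemma stack (b : ℕ) (L : Multiset (ℕ × ℕ)) (h : ∀ p ∈ L, 4 * p.2 ≤ p.1 ^ 2 ∧ p.2 ≤ b) :
    ∃ S : Finset (Fin 3 → ℤ), S.card = (L.map Prod.snd).sum ∧
      (latticeBoundary S).encard ≤ ((2 * (b + (L.map Prod.fst).sum) : ℕ) : ℕ∞) := by
  classical
  have hb : ∀ p ∈ L, p.2 ≤ b := fun p hp => (h p hp).2
  let e : (Σ _ : ℕ, ℕ) → (Fin 3 → ℤ) := fun q => ![(Nat.unpair q.1).1, (Nat.unpair q.1).2, q.2]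
  have einj : Function.Injective e := by
    rintro ⟨n, x⟩ ⟨m, y⟩ hh
    have h0 := congrFun hh 0
    have h1 := congrFun hh 1
    have h2 := congrFun hh 2
    simp only [e, Matrix.cons_val_zero, Matrix.cons_val_one, Matrix.cons_val, Nat.cast_inj] at h0 h1 h2
    have : n = m := by rw [← Nat.pair_unpair n, h0, h1, Nat.pair_unpair]
    subst this h2
    rfl
  let S := ((range b).sigma (fun n => range (ht L n))).image e
  have mem : ∀ p, p ∈ S ↔ ∃ x y z : ℕ, p = ![(x : ℤ), y, z] ∧ z < ht L (Nat.pair x y) := by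
    intro p
    simp only [S, mem_image, mem_sigma, mem_range]
    constructor
    · rintro ⟨⟨n, z⟩, ⟨-, h2⟩, rfl⟩
      exact ⟨_, _, z, rfl, by rwa [Nat.pair_unpair]⟩
    · rintro ⟨x, y, z, rfl, hz⟩
      exact ⟨⟨Nat.pair x y, z⟩, ⟨ht_pos hb (Nat.zero_lt_of_lt hz), hz⟩, by simp [e]⟩
  refine ⟨S, ?_, (bdry_down S ?_ ?_).trans ?_⟩
  · rw [card_image_of_injective _ einj, card_sigma]
    simp only [card_range]
    rw [sum_ht L b (fun c => c)]
    congr 1
    refine Multiset.map_congr rfl (fun p hp => ?_)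
    have : (range b).filter (fun c => c < p.2) = range p.2 := by
      ext c
      have := hb p hp
      simp only [mem_filter, mem_range]
      omega
    rw [this, card_range]
  · intro p hp
    obtain ⟨x, y, z, rfl, -⟩ := (mem p).1 hp
    intro j
    fin_cases j <;> simp
  · intro p hp q h0 hq
    obtain ⟨x, y, z, rfl, hz⟩ := (mem p).1 hp
    have a0 := h0 0
    have a1 := h0 1
    have a2 := h0 2
    have b0 := hq 0
    have b1 := hq 1
    have b2 := hq 2
    simp only [Pi.zero_apply, Matrix.cons_val_zero, Matrix.cons_val_one, Matrix.cons_val] at a0 a1 a2 b0 b1 b2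
    refine (mem q).2 ⟨(q 0).toNat, (q 1).toNat, (q 2).toNat, ?_, ?_⟩
    · funext j
      fin_cases j <;> simp [*]
    · have := ht_anti L (pair_mono (a := (q 0).toNat) (c := (q 1).toNat) (a' := x) (c' := y)
        (by omega) (by omega))
      omega
  · rw [Nat.cast_le, Fin.sum_univ_three]
    have k2 : (S.filter (fun p => p 2 = 0)).card ≤ b := by
      have : S.filter (fun p => p 2 = 0) ⊆ (range b).image (fun n => e ⟨n, 0⟩) := by
        intro p hp
        obtain ⟨hp, h2⟩ := mem_filter.1 hp
        obtain ⟨x, y, z, rfl, hz⟩ := (mem p).1 hp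
        simp only [Matrix.cons_val, Nat.cast_eq_zero] at h2
        subst h2
        exact mem_image.2 ⟨Nat.pair x y, mem_range.2 (ht_pos hb hz), by simp [e]⟩
      exact (card_le_card this).trans (card_image_le.trans (by simp))
    have k0 : (S.filter (fun p => p 0 = 0)).card ≤ (L.map (fun p => (p.1 + 1) / 2)).sum := by
      have : S.filter (fun p => p 0 = 0) ⊆ ((range b).sigma
          (fun c => range (ht L (Nat.pair 0 c)))).image (fun q => ![0, (q.1 : ℤ), q.2]) := by
        intro p hp
        obtain ⟨hp, h2⟩ := mem_filter.1 hp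
        obtain ⟨x, y, z, rfl, hz⟩ := (mem p).1 hp
        simp only [Matrix.cons_val_zero, Nat.cast_eq_zero] at h2
        subst h2
        refine mem_image.2 ⟨⟨y, z⟩, mem_sigma.2 ⟨mem_range.2 ?_, mem_range.2 hz⟩, by simp⟩
        exact lt_of_le_of_lt (Nat.right_le_pair 0 y) (ht_pos hb (by omega))
      refine (card_le_card this).trans (card_image_le.trans ?_)
      rw [card_sigma]
      simp only [card_range]
      rw [sum_ht L b (fun c => Nat.pair 0 c)]
      refine Multiset.sum_map_le_sum_map _ _ (fun p hp => ?_)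
      have h1 := (h p hp).1
      refine le_trans (card_le_card (t := range ((p.1 + 1) / 2)) ?_) (by simp)
      intro c hc
      have h2 := (mem_filter.1 hc).2
      have h3 : Nat.pair 0 c = c * c := by
        unfold Nat.pair
        split_ifs with h
        · simp
        · have : c = 0 := by omega
          simp [this]
      rw [h3] at h2
      have h4 : 2 * c < p.1 := by
        by_contra hh
        have : p.1 ^ 2 ≤ (2 * c) ^ 2 := Nat.pow_le_pow_left (by omega) 2
        nlinarith
      simp only [mem_range]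
      omega
    have k1 : (S.filter (fun p => p 1 = 0)).card ≤ (L.map (fun p => p.1 / 2)).sum := by
      have : S.filter (fun p => p 1 = 0) ⊆ ((range b).sigma
          (fun c => range (ht L (Nat.pair c 0)))).image (fun q => ![(q.1 : ℤ), 0, q.2]) := by
        intro p hp
        obtain ⟨hp, h2⟩ := mem_filter.1 hp
        obtain ⟨x, y, z, rfl, hz⟩ := (mem p).1 hp
        simp only [Matrix.cons_val_zero, Matrix.cons_val_one, Nat.cast_eq_zero] at h2
        subst h2
        refine mem_image.2 ⟨⟨x, z⟩, mem_sigma.2 ⟨mem_range.2 ?_, mem_range.2 hz⟩, by simp⟩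
        exact lt_of_le_of_lt (Nat.left_le_pair x 0) (ht_pos hb (by omega))
      refine (card_le_card this).trans (card_image_le.trans ?_)
      rw [card_sigma]
      simp only [card_range]
      rw [sum_ht L b (fun c => Nat.pair c 0)]
      refine Multiset.sum_map_le_sum_map _ _ (fun p hp => ?_)
      have h1 := (h p hp).1
      refine le_trans (card_le_card (t := range (p.1 / 2)) ?_) (by simp)
      intro c hc
      have h2 := (mem_filter.1 hc).2
      have h3 : Nat.pair c 0 = c * c + c := by
        unfold Nat.pair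
        simp
      rw [h3] at h2
      have h4 : 2 * c + 1 < p.1 := by
        by_contra hh
        have : p.1 ^ 2 ≤ (2 * c + 1) ^ 2 := Nat.pow_le_pow_left (by omega) 2
        nlinarith
      simp only [mem_range]
      omega
    have k3 : (L.map (fun p => (p.1 + 1) / 2)).sum + (L.map (fun p => p.1 / 2)).sum =
        (L.map Prod.fst).sum := by
      rw [← Multiset.sum_map_add]
      congr 1
      refine Multiset.map_congr rfl (fun p _ => ?_)
      omega
    omega

theorem lattice {H : Type} [DecidableEq H] [Fintype H] (G : SimpleGraph H) (h4 : G.CliqueFree 4)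
    (t : ℕ) (ht : t ≤ cq G 3 univ) :
    ∃ S : Finset (Fin 3 → ℤ), S.card = t ∧
      (latticeBoundary S).encard ≤ ((2 * cq G 2 univ : ℕ) : ℕ∞) := by
  obtain ⟨b, L, h1, h2, h3⟩ := layers G h4
  obtain ⟨L', k1, k2, k3⟩ := shrink b L t h1 (ht.trans h3)
  obtain ⟨S, s1, s2⟩ := stack b L' k1
  refine ⟨S, s1.trans k3, s2.trans ?_⟩
  rw [Nat.cast_le]
  omega

end Pool.Agent.H294Z.Cube
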