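import Pool.Agent.H294Z.Cube.Potential
import Pool.Agent.H294Z.Cube.Free
import Pool.Agent.H294Z.Cube.Lattice

set_option autoImplicit false

namespace Pool.Agent.H294Z.Cube

open unitInterval Cubulation

noncomputable def ctr : UCube := fun _ => ⟨1 / 2, by norm_num⟩

lemma ctr_ne (k : Fin 3) : ¬ (ctr k = 0 ∨ ctr k = 1) := by
  rintro (hk | hk) <;> have := congrArg Subtype.val hk <;> norm_num [ctr] at this

lemma corner_all {β : Type} (f : (Fin 3 → Bool) → β) (h : ∀ a l, f (flp l a) = f a)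
    (a b : Fin 3 → Bool) : f a = f b :=
  corner_ind (y := ctr) f (fun a l _ _ => h a l) (fun k hk => absurd hk (ctr_ne k))
    (fun k hk => absurd hk (ctr_ne k))

theorem main (X : Cubulation) (F : X.FlagLinks) :
    ∃ S : Finset (Fin 3 → ℤ), S.card = X.n ∧
      (latticeBoundary S).encard ≤ X.boundarySquares.encard := by
  classical
  obtain ⟨ψ, hψ⟩ := potential (cx F).T (cx F).T_rev (fun _ _ _ _ h => (cx F).T_sq h)
  obtain ⟨M, hM, hsrc⟩ := Cx.exists_met (cx F) srcD SqD.s1 SqD.s2 conn ψ hψ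
  have hSq : M.Sq = SqD := congrArg Cx.Sq hM
  have hrev : M.rev = revD := congrArg Cx.rev hM
  obtain ⟨i0, -⟩ := X.surj ⟨0, by simp⟩
  obtain ⟨H, hH, G, cl, o, h4, c1, o1, c2, c3, c4⟩ := M.core
    (by
      unfold Met.No4 Met.Adj
      rw [hSq]
      exact no4 F)
    (by
      unfold Met.Adj
      rw [hSq]
      exact Cubulation.pure) (srcD (mkD (frames_self i0) bot 0))
  simp only [Met.Adj, Met.Free, hSq, hrev, hsrc] at c1 o1 c2 c3 c4
  let _ : Fintype H := Fintype.ofFinite H
  have oc : ∀ c (hc : c ∈ X.frames) a b l,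
      (o (mkD hc a l) ↔ a l = false) = (o (mkD hc b l) ↔ b l = false) := by
    intro c hc a b l
    refine corner_all (fun a => (o (mkD hc a l) ↔ a l = false)) (fun a m => ?_) a b
    by_cases hm : l = m
    · subst hm
      rw [← rev_mkD, o1]
      simp only [flp, Function.update_self]
      cases a l <;> simp
    · rw [(c2 _ _ _ _ (sq_mkD hc a hm)).2.1]
      simp [flp, hm]
  have adj : ∀ c (hc : c ∈ X.frames) a l m, l ≠ m → G.Adj (cl (mkD hc a l)) (cl (mkD hc a m)) :=
    fun c hc a l m h => (c2 _ _ _ _ (sq_mkD hc a h)).2.2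
  have cinj : ∀ c (hc : c ∈ X.frames) a, Function.Injective (fun l => cl (mkD hc a l)) := by
    intro c hc a l m h
    by_contra hne
    exact (adj c hc a l m hne).ne h
  have hV : X.n ≤ cq G 3 Finset.univ := by
    have ha : ∀ j, ∃ a, ∀ k, o (mkD (frames_self (X := X) j) a k) := by
      intro j
      refine ⟨fun k => decide (¬ o (mkD (frames_self j) bot k)), fun k => ?_⟩
      have := oc _ (frames_self j) (fun k => decide (¬ o (mkD (frames_self j) bot k))) bot k
      by_cases h : o (mkD (frames_self j) bot k) <;> simpa [h, bot] using this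
    choose a ha using ha
    unfold cq
    rw [← Finset.card_fin X.n]
    refine Finset.card_le_card_of_injOn
      (fun j => Finset.univ.image (fun k => cl (mkD (frames_self j) (a j) k))) ?_ ?_
    · intro j _
      simp only [Finset.coe_filter, Finset.mem_powersetCard, Finset.subset_univ, true_and,
        Set.mem_ofPred_eq]
      refine ⟨by rw [Finset.card_image_of_injective _ (cinj _ _ _)]; simp, ?_⟩
      intro x hx y hy hxy
      simp only [Finset.coe_image, Set.mem_image] at hx hy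
      obtain ⟨l, -, rfl⟩ := hx
      obtain ⟨m, -, rfl⟩ := hy
      exact adj _ _ _ l m (fun h => hxy (by rw [h]))
    · intro i _ j _ h
      have h1 : ∀ k, ∃ l, cl (mkD (frames_self j) (a j) l) = cl (mkD (frames_self i) (a i) k) := by
        intro k
        have : cl (mkD (frames_self i) (a i) k) ∈
            Finset.univ.image (fun k => cl (mkD (frames_self j) (a j) k)) := by
          simp only at h
          rw [← h]
          exact Finset.mem_image_of_mem _ (Finset.mem_univ k)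
        simpa using this
      choose π hπ using h1
      have h2 : Function.Injective π := fun k l e => cinj _ (frames_self i) (a i) (by
        simp only [← hπ, e])
      let p := Equiv.ofBijective π (Finite.injective_iff_bijective.1 h2)
      obtain ⟨e0, e1, e2⟩ := c3 _ _ _ _ _ _ ⟨_, _, sq_mkD (frames_self i) (a i) (l := 0) (m := 1)
          (by decide)⟩ ⟨_, _, sq_mkD (frames_self i) (a i) (l := 0) (m := 2) (by decide)⟩
        ⟨_, _, sq_mkD (frames_self i) (a i) (l := 1) (m := 2) (by decide)⟩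
        (Subtype.ext (by rw [src_mkD, src_mkD])) (Subtype.ext (by rw [src_mkD, src_mkD]))
        (hπ 0).symm (hπ 1).symm (hπ 2).symm (ha _ _) (ha _ _) (ha _ _) (ha _ _) (ha _ _) (ha _ _)
      have h3 := F.cube_eq (X.φ i ∘ cubeSym (Equiv.refl _) (a i)) ⟨i, _, _, rfl⟩
        (X.φ j ∘ cubeSym p.symm (a j)) ⟨j, _, _, rfl⟩ (by
          funext k
          rw [edge_comp, edge_comp]
          fin_cases k
          · exact congrArg Subtype.val e0
          · exact congrArg Subtype.val e1
          · exact congrArg Subtype.val e2)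
      refine X.distinct i j _ _ ?_ (congrFun h3 ctr)
      refine Set.eq_univ_of_forall fun w k hk => ?_
      obtain ⟨l, hl⟩ := IsSym.bd ⟨_, _, rfl⟩ hk
      exact absurd hl (ctr_ne l)
  obtain ⟨S, hS1, hS2⟩ := lattice G h4 X.n hV
  refine ⟨S, hS1, hS2.trans ?_⟩
  have fr : ∀ d e : X.Dart, (∃ x y, SqD d e x y) →
      (∀ f f', (∃ x y, SqD d f x y) → (∃ x y, SqD e f x y) → (∃ x y, SqD d f' x y) →
        (∃ x y, SqD e f' x y) → f = f') →
      ∃ c : X.frames, d = mkD c.2 bot 0 ∧ e = mkD c.2 bot 1 ∧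
        Set.range (square c.1) ∈ X.boundarySquares := by
    rintro d e ⟨x, y, h⟩ hf
    obtain ⟨c, hc, rfl, rfl, -, -⟩ := h.normal
    refine ⟨⟨c, hc⟩, rfl, rfl, ⟨c, hc, rfl⟩, free_sphere hc fun c' hc' e0 e1 => ?_⟩
    have k0 : mkD hc' bot 0 = mkD hc bot 0 := Subtype.ext (by simp only [mkD, EE_bot, e0])
    have k1 : mkD hc' bot 1 = mkD hc bot 1 := Subtype.ext (by simp only [mkD, EE_bot, e1])
    have k2 := hf (mkD hc' bot 2) (mkD hc bot 2)
      (k0 ▸ ⟨_, _, sq_mkD hc' bot (by decide)⟩) (k1 ▸ ⟨_, _, sq_mkD hc' bot (by decide)⟩)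
      ⟨_, _, sq_mkD hc bot (by decide)⟩ ⟨_, _, sq_mkD hc bot (by decide)⟩
    have k3 := congrArg Subtype.val k2
    simp only [mkD, EE_bot] at k3
    refine F.cube_eq c' hc' c hc (funext fun k => ?_)
    fin_cases k
    · exact e0
    · exact e1
    · exact k3
  unfold cq
  set E := (Finset.powersetCard 2 (Finset.univ : Finset H)).filter
    (fun s : Finset H => G.IsClique (s : Set H)) with hE
  have hA : ∀ s : E, ∃ C : Bool → X.frames, (∀ b, s.1 = {cl (mkD (C b).2 bot 0),
      cl (mkD (C b).2 bot 1)} ∧ o (mkD (C b).2 bot 0) ∧ o (mkD (C b).2 bot 1) ∧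
      Set.range (square (C b).1) ∈ X.boundarySquares) ∧
      cl (mkD (C true).2 bot 0) = cl (mkD (C false).2 bot 0) ∧
      mkD (C true).2 bot 0 ≠ mkD (C false).2 bot 0 := by
    rintro ⟨s, hs⟩
    obtain ⟨hs1, hs2⟩ := Finset.mem_filter.1 hs
    obtain ⟨x, y, hxy, rfl⟩ := Finset.card_eq_two.1 (Finset.mem_powersetCard.1 hs1).2
    obtain ⟨d, e, d', e', a1, a2, a3, a4, a5, a6, a7, a8, a9, a10, a11, a12, a13⟩ :=
      c4 x y (hs2 (by simp) (by simp) hxy)
    obtain ⟨c, rfl, rfl, b1⟩ := fr d e a9 a11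
    obtain ⟨c', rfl, rfl, b2⟩ := fr d' e' a10 a12
    refine ⟨fun b => cond b c c', fun b => ?_, a1.trans a3.symm, a13⟩
    cases b
    · exact ⟨congrArg₂ (fun u v => ({u, v} : Finset H)) a3.symm a4.symm, a7, a8, b2⟩
    · exact ⟨congrArg₂ (fun u v => ({u, v} : Finset H)) a1.symm a2.symm, a5, a6, b1⟩
  choose C hC1 hC2 hC3 using hA
  have hcard : (Set.univ : Set (E × Bool)).encard = ((2 * E.card : ℕ) : ℕ∞) := by
    rw [Set.encard_univ, ENat.card_eq_coe_fintype_card]
    simp [mul_comm]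
  rw [← hcard]
  refine Set.encard_le_encard_of_injOn (f := fun q => Set.range (square (C q.1 q.2).1))
    (fun q _ => (hC1 q.1 q.2).2.2.2) ?_
  rintro ⟨s, b⟩ - ⟨s', b'⟩ - h
  obtain ⟨a, l, m, a2, l2, m2, e0, e1⟩ := square_image (C s b).2 (C s' b').2 h
  obtain ⟨p1, p2, p3, -⟩ := hC1 s b
  obtain ⟨q1, q2, q3, -⟩ := hC1 s' b'
  have hz : ∀ k, k ≠ 2 → o (mkD (C s' b').2 a k) → a k = false := by
    intro k hk ho
    have h1 := oc _ (C s' b').2 a bot k
    have h2 : o (mkD (C s' b').2 bot k) := by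
      fin_cases k
      · exact q2
      · exact q3
      · exact absurd rfl hk
    simpa [ho, h2, bot] using h1
  have hl := hz l l2 (e0 ▸ p2)
  have hm := hz m m2 (e1 ▸ p3)
  have hlm : l ≠ m := by
    rintro rfl
    exact (adj _ (C s b).2 bot 0 1 (by decide)).ne (by rw [e0, e1])
  have hcase : (l = 0 ∧ m = 1) ∨ (l = 1 ∧ m = 0) := by omega
  have hab : a = bot := by
    funext k
    rcases hcase with ⟨rfl, rfl⟩ | ⟨rfl, rfl⟩ <;> fin_cases k <;> assumption
  subst hab
  have hss : s = s' := by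
    apply Subtype.ext
    rw [p1, q1, e0, e1]
    rcases hcase with ⟨rfl, rfl⟩ | ⟨rfl, rfl⟩
    · rfl
    · exact Finset.pair_comm _ _
  subst hss
  refine Prod.ext rfl ?_
  by_contra hb
  have k1 : cl (mkD (C s b).2 bot 0) = cl (mkD (C s b').2 bot 0) ∧
      mkD (C s b).2 bot 0 ≠ mkD (C s b').2 bot 0 := by
    cases b <;> cases b'
    · exact absurd rfl hb
    · exact ⟨(hC2 s).symm, (hC3 s).symm⟩
    · exact ⟨hC2 s, hC3 s⟩
    · exact absurd rfl hb
  rcases hcase with ⟨rfl, rfl⟩ | ⟨rfl, rfl⟩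
  · exact k1.2 e0
  · exact (adj _ (C s b').2 bot 0 1 (by decide)).ne (by rw [← k1.1, e0])

end Pool.Agent.H294Z.Cube
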