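import Pool.Agent.H294Z.Cube.Frames
import Pool.Agent.H294Z.Cube.Descent

set_option autoImplicit false

namespace Pool.Agent.H294Z.Cube

open unitInterval Topology Filter

instance : ContractibleSpace Ball :=
  (convex_closedBall (0 : EuclideanSpace ℝ (Fin 3)) 1).contractibleSpace ⟨0, by simp⟩

instance : LocallyPathConnectedSpace Ball :=
  (convex_closedBall (0 : EuclideanSpace ℝ (Fin 3)) 1).locallyPathConnectedSpace

lemma corner_ind {y : UCube} {β : Type} (f : (Fin 3 → Bool) → β)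
    (h : ∀ a l, cor a ∈ supp y → cor (flp l a) ∈ supp y → f (flp l a) = f a)
    {a b : Fin 3 → Bool} (ha : cor a ∈ supp y) (hb : cor b ∈ supp y) : f a = f b := by
  have step : ∀ a l, cor a ∈ supp y →
      cor (Function.update a l (b l)) ∈ supp y ∧ f (Function.update a l (b l)) = f a := by
    intro a l ha
    have h1 : cor (Function.update a l (b l)) ∈ supp y := by
      intro k hk
      by_cases hkl : k = l
      · subst hkl
        rw [← hb k hk]
        simp [cor]
      · rw [← ha k hk]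
        simp [cor, hkl]
    refine ⟨h1, ?_⟩
    by_cases h2 : b l = a l
    · rw [h2, Function.update_eq_self]
    · have h3 : b l = !a l := by
        cases ha : a l <;> cases hb : b l <;> simp_all
      rw [h3] at h1 ⊢
      exact h a l ha h1
  obtain ⟨a0, b0⟩ := step a 0 ha
  obtain ⟨a1, b1⟩ := step _ 1 a0
  obtain ⟨-, b2⟩ := step _ 2 a1
  rw [← b0, ← b1, ← b2]
  congr 1
  funext k
  fin_cases k <;> simp

lemma pt_mem_supp {y : UCube} {a : Fin 3 → Bool} {l : Fin 3} (ha : cor a ∈ supp y)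
    (hb : cor (flp l a) ∈ supp y) (t : I) : pt a l t ∈ supp y := by
  intro k hk
  by_cases hkl : k = l
  · subst hkl
    have := (ha k hk).trans (hb k hk).symm
    exfalso
    revert this
    simp only [cor, flp, Function.update_self]
    cases a k <;> simp
  · rw [← ha k hk]
    simp [pt, cubeSym, cor, hkl]

open Classical in
noncomputable def cor0 (y : UCube) : Fin 3 → Bool := fun k => decide (y k = 1)

lemma cor0_mem (y : UCube) : cor (cor0 y) ∈ supp y := by
  intro k hk
  rcases hk with hk | hk <;> simp [cor, cor0, hk]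

lemma cubeSym_cor (p : Equiv.Perm (Fin 3)) (s a : Fin 3 → Bool) :
    cubeSym p s (cor a) = cor (fun k => xor (s k) (a (p k))) := by
  rw [← pt_zero a 0, cubeSym_pt, pt_zero]

lemma IsSym.cor {g : UCube → UCube} (h : IsSym g) (a : Fin 3 → Bool) : ∃ b, g (cor a) = cor b := by
  obtain ⟨p, s, rfl⟩ := h
  exact ⟨_, cubeSym_cor p s a⟩

namespace Cubulation

variable {X : Cubulation}

lemma conn (u v : X.Vert) :
    Relation.ReflTransGen (fun a b => ∃ d : X.Dart, srcD d = a ∧ srcD (revD d) = b) u v := by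
  set R := Relation.ReflTransGen (fun a b => ∃ d : X.Dart, srcD d = a ∧ srcD (revD d) = b)
    with hR
  let vx : Fin X.n → (Fin 3 → Bool) → X.Vert := fun j a => srcD (mkD (frames_self j) a 0)
  have hvx : ∀ j a l, srcD (mkD (frames_self j) a l) = vx j a := fun j a l =>
    Subtype.ext (by simp only [vx, src_mkD])
  have k1 : ∀ j a b, R u (vx j a) ↔ R u (vx j b) := by
    intro j a b
    have hu : ∀ a : Fin 3 → Bool, cor a ∈ supp (fun _ => (⟨1 / 2, by norm_num⟩ : I)) := by
      intro a k hk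
      exfalso
      rcases hk with hk | hk <;> have := congrArg Subtype.val hk <;> norm_num at this
    refine Eq.to_iff (corner_ind (fun a => R u (vx j a)) (fun a l _ _ => propext ⟨fun h => ?_,
      fun h => ?_⟩) (hu a) (hu b))
    · refine Relation.ReflTransGen.tail h ⟨mkD (frames_self j) (flp l a) l, hvx _ _ _, ?_⟩
      rw [rev_mkD, flp_flp, hvx]
    · refine Relation.ReflTransGen.tail h ⟨mkD (frames_self j) a l, hvx _ _ _, ?_⟩
      rw [rev_mkD, hvx]
  have k2 : ∀ i j y z, X.φ i y = X.φ j z → (R u (vx i bot) ↔ R u (vx j bot)) := by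
    intro i j y z h
    obtain ⟨p, s, -, h2⟩ := X.glue i j y z h
    have h3 := h2 _ (cor0_mem y)
    rw [cubeSym_cor] at h3
    rw [k1 i bot (cor0 y), k1 j bot (fun k => xor (s k) (cor0 y (p k)))]
    have : vx i (cor0 y) = vx j (fun k => xor (s k) (cor0 y (p k))) :=
      Subtype.ext (by simp only [vx, src_mkD, h3])
    rw [this]
  let W : Set Ball := {x | ∀ j z, X.φ j z = x → R u (vx j bot)}
  have k3 : ∀ j z, X.φ j z ∈ W ↔ R u (vx j bot) := fun j z =>
    ⟨fun h => h j z rfl, fun h i y hy => (k2 i j y z hy).2 h⟩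
  have k4 : IsClopen W := by
    constructor
    · rw [← isOpen_compl_iff]
      refine isOpen_of_pre (X := X) fun j => ?_
      have : X.φ j ⁻¹' Wᶜ = {_z | ¬ R u (vx j bot)} := by
        ext z
        simp [k3]
      rw [this]
      exact isOpen_const
    · refine isOpen_of_pre (X := X) fun j => ?_
      have : X.φ j ⁻¹' W = {_z | R u (vx j bot)} := by
        ext z
        simp [k3]
      rw [this]
      exact isOpen_const
  have k5 : ∀ w : X.Vert, ∃ j a, w = vx j a := by
    rintro ⟨_, d, rfl⟩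
    obtain ⟨j, a, l, rfl⟩ := dart_eq d
    exact ⟨j, a, hvx j a l⟩
  obtain ⟨i, a, ha⟩ := k5 u
  obtain ⟨j, b, rfl⟩ := k5 v
  have k6 : W = Set.univ := by
    refine k4.eq_univ ⟨X.φ i 0, (k3 i 0).2 ((k1 i a bot).1 ?_)⟩
    rw [← ha]
  exact (k1 j bot b).1 ((k3 j 0).1 (by rw [k6]; trivial))

lemma reps_finite (x : Ball) : {r : Fin X.n × UCube | X.φ r.1 r.2 = x}.Finite := by
  classical
  refine Set.Finite.of_injOn (f := fun r => (r.1, fun k => (decide (r.2 k = 0), decide (r.2 k = 1))))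
    (t := Set.univ) (fun _ _ => trivial) ?_ (Set.toFinite _)
  rintro ⟨i, y⟩ hy ⟨j, z⟩ hz h
  simp only [Prod.mk.injEq] at h
  obtain ⟨rfl, h⟩ := h
  have h1 : ∀ k, (y k = 0 ↔ z k = 0) ∧ (y k = 1 ↔ z k = 1) := fun k => by
    simpa using congrFun h k
  refine Prod.ext rfl (X.inj i y z (supp_eq (fun k hk => ?_) (fun k hk => ?_)) (hy.trans hz.symm))
  · rcases hk with hk | hk
    · rw [hk, (h1 k).1.2 hk]
    · rw [hk, (h1 k).2.2 hk]
  · rcases hk with hk | hk
    · rw [hk, (h1 k).1.1 hk]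
    · rw [hk, (h1 k).2.1 hk]

lemma exists_radius (x : Ball) : ∃ ρ : ℝ, 0 < ρ ∧
    (∀ j y y', X.φ j y = x → X.φ j y' = x → dist y y' < 2 * ρ → y = y') ∧
    ∀ j y z, X.φ j y = x → dist z y < ρ → y ∈ supp z := by
  have base : ∀ c : ℝ, 0 < c → ∀ᶠ ρ in 𝓝[>] (0 : ℝ), 2 * ρ ≤ c := by
    intro c hc
    filter_upwards [Ioo_mem_nhdsGT (show (0 : ℝ) < c / 2 by linarith)] with ρ hρ
    linarith [hρ.2]
  have h1 : ∀ᶠ ρ in 𝓝[>] (0 : ℝ), ∀ r ∈ {r : Fin X.n × UCube | X.φ r.1 r.2 = x},
      ∀ r' ∈ {r : Fin X.n × UCube | X.φ r.1 r.2 = x}, dist r.2 r'.2 < 2 * ρ → r.2 = r'.2 := by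
    refine (eventually_all_finite (reps_finite x)).2 fun r _ => ?_
    refine (eventually_all_finite (reps_finite x)).2 fun r' _ => ?_
    by_cases h : r.2 = r'.2
    · exact Eventually.of_forall fun _ _ => h
    · filter_upwards [base _ (dist_pos.2 h)] with ρ hρ h2
      linarith
  have h2 : ∀ᶠ ρ in 𝓝[>] (0 : ℝ), ∀ r ∈ {r : Fin X.n × UCube | X.φ r.1 r.2 = x},
      ∀ k, ∀ e ∈ ({0, 1} : Set I), dist e (r.2 k) < 2 * ρ → r.2 k = e := by
    refine (eventually_all_finite (reps_finite x)).2 fun r _ => ?_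
    refine eventually_all.2 fun k => ?_
    refine (eventually_all_finite (Set.toFinite _)).2 fun e _ => ?_
    by_cases h : r.2 k = e
    · exact Eventually.of_forall fun _ _ => h
    · filter_upwards [base _ (dist_pos.2 (Ne.symm h))] with ρ hρ h2
      linarith
  obtain ⟨ρ, ⟨a1, a2⟩, a3⟩ := ((h1.and h2).and self_mem_nhdsWithin).exists
  have a4 : 0 < ρ := a3
  refine ⟨ρ, a4, fun j y y' b1 b2 => a1 (j, y) b1 (j, y') b2, fun j y z b1 b2 k hk => ?_⟩
  refine a2 (j, y) b1 k (z k) hk ?_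
  have := dist_le_pi_dist z y k
  simp only
  linarith

def Glue (r r' : Fin X.n × UCube) (g : UCube → UCube) : Prop :=
  IsSym g ∧ g r.2 = r'.2 ∧ ∀ w ∈ supp r.2, X.φ r'.1 (g w) = X.φ r.1 w

lemma exists_glue {r r' : Fin X.n × UCube} (h : X.φ r.1 r.2 = X.φ r'.1 r'.2) :
    ∃ g, Glue r r' g := frames_glue (frames_self _) (frames_self _) h

theorem potential {G : Type} [Group G] (T : X.Dart → G) (h1 : ∀ d, T (revD d) = (T d)⁻¹)
    (h2 : ∀ d e d' e', SqD d e d' e' → T e' * T d = T d' * T e) :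
    ∃ ψ : X.Vert → G, ∀ d, ψ (srcD (revD d)) = T d * ψ (srcD d) := by
  classical
  have hP : ∀ j, ∃ P : (Fin 3 → Bool) → G,
      ∀ a l, P (flp l a) = T (mkD (frames_self j) a l) * P a := fun j =>
    cube_potential (fun a l => T (mkD (frames_self j) a l))
      (fun a l => by
        have := h1 (mkD (frames_self j) a l)
        rwa [rev_mkD] at this)
      (fun a l m hlm => h2 _ _ _ _ (sq_mkD (frames_self j) a hlm))
  choose P hP using hP
  have hτ : ∀ r r' : Fin X.n × UCube, ∃ γ : G, ∀ g, Glue r r' g → ∀ a b, cor a ∈ supp r.2 →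
      g (cor a) = cor b → P r'.1 b * γ = P r.1 a := by
    intro r r'
    by_cases h : ∃ g, Glue r r' g
    swap
    · exact ⟨1, fun g hg => absurd ⟨g, hg⟩ h⟩
    obtain ⟨_, ⟨p, s, rfl⟩, k1, k2⟩ := h
    let f : (Fin 3 → Bool) → G := fun a => (P r'.1 (fun k => xor (s k) (a (p k))))⁻¹ * P r.1 a
    refine ⟨f (cor0 r.2), fun g hg a b ha hb => ?_⟩
    have e1 := glue_unique (frames_self r'.1) hg.1 ⟨p, s, rfl⟩ (hg.2.1.trans k1.symm)
      (fun w hw => (hg.2.2 w hw).trans (k2 w hw).symm) _ ha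
    rw [hb, cubeSym_cor] at e1
    have e2 : f (cor0 r.2) = f a := by
      refine corner_ind f (fun a l ha hb => ?_) (cor0_mem _) ha
      have e3 : mkD (frames_self r'.1) (fun k => xor (s k) (a (p k))) (p.symm l) =
          mkD (frames_self r.1) a l := by
        apply Subtype.ext
        funext t
        simp only [mkD, EE]
        rw [← cubeSym_pt, k2 _ (pt_mem_supp ha hb t)]
      simp only [f]
      rw [act_flp, hP, hP, e3]
      group
    rw [e2, cor_inj e1]
    simp [f]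
  choose τ hτ using hτ
  have cocycle : ∀ r r' r'' : Fin X.n × UCube, X.φ r.1 r.2 = X.φ r'.1 r'.2 →
      X.φ r'.1 r'.2 = X.φ r''.1 r''.2 → τ r' r'' * τ r r' = τ r r'' := by
    intro r r' r'' e1 e2
    obtain ⟨g, hg⟩ := exists_glue e1
    obtain ⟨g', hg'⟩ := exists_glue e2
    have hgg : Glue r r'' (g' ∘ g) := ⟨hg'.1.comp hg.1, by simp [hg.2.1, hg'.2.1], fun w hw => by
      have := hg.1.supp_mem hw
      rw [hg.2.1] at this
      simp only [Function.comp, hg'.2.2 _ this, hg.2.2 w hw]⟩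
    obtain ⟨b, hb⟩ := hg.1.cor (cor0 r.2)
    obtain ⟨c, hc⟩ := hg'.1.cor b
    have m1 := hg.1.supp_mem (cor0_mem r.2)
    rw [hg.2.1, hb] at m1
    have q1 := hτ r r' g hg _ _ (cor0_mem _) hb
    have q2 := hτ r' r'' g' hg' _ _ m1 hc
    have q3 := hτ r r'' _ hgg _ c (cor0_mem _) (by simp [hb, hc])
    apply mul_left_cancel (a := P r''.1 c)
    rw [q3, ← mul_assoc, q2, q1]
  have loc : ∀ x : Ball, ∃ U : Set Ball, IsOpen U ∧ x ∈ U ∧ ∃ g : Fin X.n × UCube → G,
      (∀ r r', X.φ r.1 r.2 ∈ U → X.φ r.1 r.2 = X.φ r'.1 r'.2 → g r' = τ r r' * g r) ∧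
      ∀ j z, X.φ j z ∈ U → ∀ᶠ z' in 𝓝 z, g (j, z') = g (j, z) := by
    intro x
    obtain ⟨ρ, hρ, r1, r2⟩ := exists_radius (X := X) x
    obtain ⟨i0, y0, h0⟩ := X.surj x
    let B : Set Ball := ⋃ j, X.φ j '' {z | ∀ y, X.φ j y = x → ρ ≤ dist z y}
    have hB : ∀ j z, X.φ j z ∈ Bᶜ → ∃ y, X.φ j y = x ∧ dist z y < ρ := by
      intro j z hz
      by_contra hn
      push Not at hn
      exact hz (Set.mem_iUnion.2 ⟨j, z, hn, rfl⟩)
    let near : Fin X.n × UCube → UCube := fun r =>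
      if h : ∃ y, X.φ r.1 y = x ∧ dist r.2 y < ρ then h.choose else r.2
    have hnear : ∀ j z y, X.φ j y = x → dist z y < ρ → near (j, z) = y := by
      intro j z y b1 b2
      have h : ∃ y, X.φ j y = x ∧ dist z y < ρ := ⟨y, b1, b2⟩
      have e : near (j, z) = h.choose := dif_pos h
      rw [e]
      refine r1 j _ _ h.choose_spec.1 b1 ?_
      have := dist_triangle_left h.choose y z
      linarith [h.choose_spec.2]
    refine ⟨Bᶜ, ?_, ?_, fun r => τ (i0, y0) (r.1, near r), ?_, ?_⟩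
    · rw [isOpen_compl_iff]
      refine isClosed_iUnion_of_finite fun j => (IsClosed.isCompact ?_).image (X.cont j) |>.isClosed
      simp only [Set.ofPred_forall]
      exact isClosed_iInter fun y => isClosed_iInter fun _ =>
        isClosed_le continuous_const (continuous_id.dist continuous_const)
    · intro hx
      obtain ⟨j, z, hz, e⟩ := Set.mem_iUnion.1 hx
      have := hz z e
      simp at this
      linarith
    · rintro ⟨i, z⟩ ⟨j, z'⟩ hz e
      obtain ⟨y, b1, b2⟩ := hB i z hz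
      obtain ⟨g, hg⟩ := exists_glue e
      have s1 := r2 i y z b1 b2
      have b3 : X.φ j (g y) = x := (hg.2.2 y s1).trans b1
      have b4 : dist z' (g y) < ρ := by
        have := hg.1.dist_le z y
        rw [show g z = z' from hg.2.1] at this
        linarith
      simp only [hnear i z y b1 b2, hnear j z' _ b3 b4]
      have hg' : Glue (i, y) (j, g y) g := ⟨hg.1, rfl, fun w hw => hg.2.2 w (supp_trans hw s1)⟩
      obtain ⟨b, hb⟩ := hg.1.cor (cor0 y)
      have q1 := hτ _ _ g hg _ _ (supp_trans (cor0_mem y) s1) hb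
      have q2 := hτ _ _ g hg' _ _ (cor0_mem y) hb
      have q3 : τ (i, z) (j, z') = τ (i, y) (j, g y) := mul_left_cancel (q1.trans q2.symm)
      rw [q3, cocycle (i0, y0) (i, y) (j, g y) (h0.trans b1.symm) (b1.trans b3.symm)]
    · intro j z hz
      obtain ⟨y, b1, b2⟩ := hB j z hz
      filter_upwards [Metric.isOpen_ball.mem_nhds (show z ∈ Metric.ball y ρ from b2)] with z' hz'
      simp only [hnear j z y b1 b2, hnear j z' y b1 hz']
  choose U hU hxU g hg1 hg2 using loc
  choose ri ry hr using X.surj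
  let t : Ball → Ball → Ball → G := fun x x' p => (g x' (ri p, ry p))⁻¹ * g x (ri p, ry p)
  have ht : ∀ x x' j z, X.φ j z ∈ U x → X.φ j z ∈ U x' →
      t x x' (X.φ j z) = (g x' (j, z))⁻¹ * g x (j, z) := by
    intro x x' j z b1 b2
    simp only [t]
    rw [hg1 x (j, z) (ri (X.φ j z), ry (X.φ j z)) b1 (hr _).symm,
      hg1 x' (j, z) (ri (X.φ j z), ry (X.φ j z)) b2 (hr _).symm]
    group
  obtain ⟨h, hh1, hh2⟩ := descent U hU hxU t (fun x p _ => by simp [t])
    (fun x y z p _ _ _ => by simp only [t]; group) (fun x x' p b1 b2 => by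
      have : IsOpen {p' | p' ∈ U x ∧ p' ∈ U x' ∧ t x x' p' = t x x' p} := by
        refine isOpen_of_pre (X := X) fun j => isOpen_iff_mem_nhds.2 fun z hz => ?_
        obtain ⟨c1, c2, c3⟩ := hz
        filter_upwards [((hU x).preimage (X.cont j)).mem_nhds c1,
          ((hU x').preimage (X.cont j)).mem_nhds c2, hg2 x j z c1, hg2 x' j z c2] with z' d1 d2 d3 d4
        refine ⟨d1, d2, ?_⟩
        rw [← c3, ht x x' j z' d1 d2, ht x x' j z c1 c2, d3, d4]
      filter_upwards [this.mem_nhds ⟨b1, b2, rfl⟩] with p' hp'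
      exact hp'.2.2)
  let Γ : Fin X.n → UCube → G := fun j z => g (X.φ j z) (j, z) * h (X.φ j z) (X.φ j z)
  have hΓ : ∀ x j z, X.φ j z ∈ U x → Γ j z = g x (j, z) * h x (X.φ j z) := by
    intro x j z b1
    simp only [Γ]
    rw [hh2 x (X.φ j z) (X.φ j z) b1 (hxU _), ht x _ j z b1 (hxU _)]
    group
  have hΓc : ∀ j z, Γ j z = Γ j 0 := by
    intro j z
    refine IsLocallyConstant.apply_eq_of_preconnectedSpace (f := Γ j) ?_ z 0
    refine (IsLocallyConstant.iff_eventually_eq _).2 fun z => ?_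
    have c1 := hxU (X.φ j z)
    filter_upwards [((hU (X.φ j z)).preimage (X.cont j)).mem_nhds c1, hg2 _ j z c1,
      (X.cont j).continuousAt.eventually (hh1 _ _ c1)] with z' d1 d2 d3
    rw [hΓ _ j z' d1, d2, d3]
  have hwd : ∀ i j a b, X.φ i (cor a) = X.φ j (cor b) → P i a * Γ i 0 = P j b * Γ j 0 := by
    intro i j a b e
    obtain ⟨q, hq⟩ := exists_glue (r := (i, cor a)) (r' := (j, cor b)) e
    have q1 := hτ _ _ q hq a b (mem_supp_self _) hq.2.1
    rw [← hΓc i (cor a), ← hΓc j (cor b)]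
    simp only [Γ]
    rw [← e, hg1 _ (i, cor a) (j, cor b) (hxU _) e, ← q1]
    simp only [mul_assoc]
  have hv : ∀ v : X.Vert, ∃ γ : G, ∀ j a, X.φ j (cor a) = v.1 → γ = P j a * Γ j 0 := by
    rintro ⟨_, d, rfl⟩
    obtain ⟨j, a, l, rfl⟩ := dart_eq d
    exact ⟨P j a * Γ j 0, fun i b e => hwd j i a b ((src_mkD (frames_self j) a l).symm.trans e.symm)⟩
  choose ψ hψ using hv
  refine ⟨ψ, fun d => ?_⟩
  obtain ⟨j, a, l, rfl⟩ := dart_eq d
  rw [rev_mkD, hψ _ j _ (src_mkD _ _ _).symm, hψ _ j _ (src_mkD _ _ _).symm, hP, mul_assoc]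

end Cubulation

end Pool.Agent.H294Z.Cube
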