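import Mathlib

set_option autoImplicit false

namespace Pool.Agent.H294Z.Cube

/-- Combinatorial skeleton of a cube complex with flag links. `Sq d e d' e'`: the oriented edges
`d`, `e` span a square, `d'` is the side parallel to `d` and `e'` the side parallel to `e`. -/
structure Cx (D : Type) where
  rev : D → D
  Sq : D → D → D → D → Prop
  rev_rev : ∀ d, rev (rev d) = d
  sym : ∀ {d e d' e'}, Sq d e d' e' → Sq e d e' d'
  rot : ∀ {d e d' e'}, Sq d e d' e' → Sq (rev d) e' (rev d') e
  ne : ∀ {d e d' e'}, Sq d e d' e' → d ≠ e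
  uniq : ∀ {d e d' e' d'' e''}, Sq d e d' e' → Sq d e d'' e'' → d' = d'' ∧ e' = e''
  cube : ∀ {d e f d1 e1 d2 f1 e2 f2}, Sq d e d1 e1 → Sq d f d2 f1 → Sq e f e2 f2 →
    ∃ d3 e3 f3, Sq e1 f1 e3 f3 ∧ Sq d1 f2 d3 f3 ∧ Sq d2 e2 d3 e3

namespace Cx

variable {D : Type} (X : Cx D)

lemma rev_inj {d e : D} (h : X.rev d = X.rev e) : d = e := by
  rw [← X.rev_rev d, h, X.rev_rev]

variable {X}

lemma rot' {d e d' e' : D} (h : X.Sq (X.rev d) e' (X.rev d') e) : X.Sq d e d' e' := by
  have := X.rot h
  rwa [X.rev_rev, X.rev_rev] at this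

lemma rot2 {d e d' e' : D} (h : X.Sq d e d' e') :
    X.Sq (X.rev d') (X.rev e') (X.rev d) (X.rev e) :=
  X.sym (X.rot (X.sym (X.rot h)))

lemma rotB {d e d' e' : D} (h : X.Sq d e d' e') : X.Sq d' (X.rev e) d (X.rev e') :=
  X.sym (X.rot (X.sym h))

variable (X)

/-- one flip of a word (the head of the list is the last letter) -/
inductive Flip : List D → List D → Prop
  | head {b b' a' a : D} (r : List D) : X.Sq b b' a' a → Flip (a :: b :: r) (a' :: b' :: r)
  | cons (a : D) {p q : List D} : Flip p q → Flip (a :: p) (a :: q)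

def Eqv (p q : List D) : Prop := Relation.ReflTransGen X.Flip p q

variable {X}

lemma Flip.symm {p q : List D} (h : X.Flip p q) : X.Flip q p := by
  induction h with
  | head r h => exact Flip.head r (X.sym h)
  | cons a _ ih => exact Flip.cons a ih

lemma Flip.length {p q : List D} (h : X.Flip p q) : p.length = q.length := by
  induction h with
  | head r h => rfl
  | cons a _ ih => simp [ih]

lemma Eqv.refl (p : List D) : X.Eqv p p := Relation.ReflTransGen.refl

lemma Eqv.trans {p q r : List D} (h : X.Eqv p q) (h' : X.Eqv q r) : X.Eqv p r :=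
  Relation.ReflTransGen.trans h h'

lemma Flip.eqv {p q : List D} (h : X.Flip p q) : X.Eqv p q := Relation.ReflTransGen.single h

lemma Eqv.symm {p q : List D} (h : X.Eqv p q) : X.Eqv q p := by
  induction h with
  | refl => exact Eqv.refl _
  | tail _ h ih => exact h.symm.eqv.trans ih

lemma Eqv.length {p q : List D} (h : X.Eqv p q) : p.length = q.length := by
  induction h with
  | refl => rfl
  | tail _ h ih => exact ih.trans h.length

lemma Eqv.cons (a : D) {p q : List D} (h : X.Eqv p q) : X.Eqv (a :: p) (a :: q) := by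
  induction h with
  | refl => exact Eqv.refl _
  | tail _ h ih => exact ih.trans (Flip.cons a h).eqv

variable (X)

def Last (p : List D) (a : D) : Prop := ∃ q, X.Eqv p (a :: q)

def Red : List D → Prop
  | [] => True
  | a :: q => Red q ∧ ¬ X.Last q (X.rev a)

variable {X}

lemma Last.of_eqv {p q : List D} {a : D} (h : X.Eqv p q) (hl : X.Last q a) : X.Last p a := by
  obtain ⟨r, hr⟩ := hl
  exact ⟨r, h.trans hr⟩

def Alt (X : Cx D) (a : D) (q : List D) (b : D) (r : List D) : Prop :=
  (a = b ∧ X.Eqv q r) ∨ ∃ a' b' s, X.Eqv q (b' :: s) ∧ X.Eqv r (a' :: s) ∧ X.Sq b' a' b a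

lemma key (n : ℕ) :
    (∀ p q : List D, p.length = n → X.Red p → X.Flip p q → X.Red q) ∧
    (∀ (a b : D) (q r : List D), q.length + 1 = n → X.Red (a :: q) → X.Eqv (a :: q) (b :: r) →
      X.Alt a q b r) := by
  induction n using Nat.strong_induction_on with
  | _ n ih =>
    have inv : ∀ p q : List D, p.length = n → X.Red p → X.Flip p q → X.Red q := by
      intro p q hn hp hf
      cases hf with
      | cons a hf =>
        rename_i p q
        simp only [List.length_cons] at hn
        exact ⟨(ih p.length (by omega)).1 p q rfl hp.1 hf,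
          fun hl => hp.2 (Last.of_eqv hf.eqv hl)⟩
      | head s0 hs =>
        rename_i x y c b
        simp only [List.length_cons] at hn
        obtain ⟨⟨h0, h1⟩, h2⟩ := hp
        have hs' := X.rot (X.sym hs)
        have g1 : ¬ X.Last s0 (X.rev y) := by
          rintro ⟨s1, hs1⟩
          exact h2 ⟨c :: s1, (hs1.cons x).trans (Flip.head s1 hs').eqv⟩
        refine ⟨⟨h0, g1⟩, ?_⟩
        rintro ⟨r1, hr1⟩
        rcases (ih (s0.length + 1) (by omega)).2 y (X.rev c) s0 r1 rfl ⟨h0, g1⟩ hr1 with
          ⟨e, -⟩ | ⟨y', g, s1, e1, -, e3⟩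
        · apply X.ne hs'
          rw [e, X.rev_rev]
        · have e4 := X.rot e3
          rw [X.rev_rev] at e4
          have e5 := X.rot (X.sym e4)
          have e6 := (X.uniq e5 hs').2
          apply h1
          rw [← e6, X.rev_rev]
          exact ⟨s1, e1⟩
    refine ⟨inv, ?_⟩
    intro a b q r hn hred h
    have main : ∀ w : List D, X.Eqv (a :: q) w → X.Red w ∧ ∀ b r, w = b :: r → X.Alt a q b r := by
      intro w hw
      induction hw with
      | refl =>
        refine ⟨hred, fun b r e => ?_⟩
        obtain ⟨rfl, rfl⟩ := List.cons.inj e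
        exact Or.inl ⟨rfl, Eqv.refl _⟩
      | tail hw hf ihw =>
        rename_i w1 w2
        have hlen : w1.length = n := by
          have := Eqv.length (X := X) hw
          simp only [List.length_cons] at this
          omega
        refine ⟨inv w1 w2 hlen ihw.1 hf, fun c t e => ?_⟩
        cases hf with
        | cons b hf =>
          rename_i r t'
          obtain ⟨rfl, rfl⟩ := List.cons.inj e
          rcases ihw.2 b r rfl with ⟨e1, e2⟩ | ⟨a', b', s, e1, e2, e3⟩
          · exact Or.inl ⟨e1, e2.trans hf.eqv⟩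
          · exact Or.inr ⟨a', b', s, e1, hf.symm.eqv.trans e2, e3⟩
        | head s0 hs =>
          rename_i x y c' b
          obtain ⟨rfl, rfl⟩ := List.cons.inj e
          simp only [List.length_cons] at hlen
          rcases ihw.2 b (x :: s0) rfl with ⟨rfl, e2⟩ | ⟨a', b', s, e1, e2, e3⟩
          · exact Or.inr ⟨y, x, s0, e2, Eqv.refl _, hs⟩
          · rcases (ih (s0.length + 1) (by omega)).2 x a' s0 s rfl ihw.1.1 e2 with
              ⟨rfl, e5⟩ | ⟨x', a'', s1, e5, e6, e7⟩
            · have u := X.uniq (X.rot (X.sym e3)) (X.rot hs)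
              have hac : a = c' := X.rev_inj u.1
              refine Or.inl ⟨hac, e1.trans ?_⟩
              rw [u.2]
              exact (e5.symm).cons y
            · obtain ⟨d3, e3', f3, k1, k2, k3⟩ :=
                X.cube (rot2 e7) (X.rot (X.sym e3)) (X.rot hs)
              have k1' := X.rot k1
              rw [X.rev_rev] at k1'
              have k2' := X.rot k2
              rw [X.rev_rev] at k2'
              have k3' := rot2 k3
              rw [X.rev_rev, X.rev_rev] at k3'
              refine Or.inr ⟨X.rev d3, X.rev e3', f3 :: s1, ?_, ?_, X.sym k3'⟩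
              · exact e1.trans ((e6.cons b').trans (Flip.head s1 k1').eqv)
              · exact (e5.cons y).trans (Flip.head s1 k2').eqv
    exact (main _ h).2 b r rfl

lemma Red.of_eqv {p q : List D} (hp : X.Red p) (h : X.Eqv p q) : X.Red q := by
  induction h with
  | refl => exact hp
  | tail _ hf ih => exact (key _).1 _ _ rfl ih hf

lemma alt {p q r : List D} {a b : D} (hp : X.Red p) (h1 : X.Eqv p (a :: q))
    (h2 : X.Eqv p (b :: r)) : X.Alt a q b r :=
  (key _).2 a b q r rfl (hp.of_eqv h1) (h1.symm.trans h2)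

lemma cancel {p q r : List D} {a : D} (hp : X.Red p) (h1 : X.Eqv p (a :: q))
    (h2 : X.Eqv p (a :: r)) : X.Eqv q r := by
  rcases alt hp h1 h2 with h | ⟨a', b', s, -, -, h⟩
  · exact h.2
  · exact absurd rfl (X.ne (rot2 h))

variable (X)

open Classical in
/-- appending an oriented edge to a reduced word and reducing -/
noncomputable def step (e : D) (p : List D) : List D :=
  if h : X.Last p (X.rev e) then h.choose else e :: p

variable {X}

lemma step_pos {e : D} {p q : List D} (hp : X.Red p) (h : X.Eqv p (X.rev e :: q)) :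
    X.Eqv (X.step e p) q := by
  have hl : X.Last p (X.rev e) := ⟨q, h⟩
  rw [step, dif_pos hl]
  exact cancel hp hl.choose_spec h

lemma step_neg {e : D} {p : List D} (h : ¬ X.Last p (X.rev e)) : X.step e p = e :: p := by
  rw [step, dif_neg h]

lemma step_red (e : D) {p : List D} (hp : X.Red p) : X.Red (X.step e p) := by
  by_cases h : X.Last p (X.rev e)
  · obtain ⟨q, hq⟩ := h
    exact (hp.of_eqv hq).1.of_eqv (step_pos hp hq).symm
  · rw [step_neg h]
    exact ⟨hp, h⟩

lemma step_eqv (e : D) {p p' : List D} (hp : X.Red p) (h : X.Eqv p p') :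
    X.Eqv (X.step e p) (X.step e p') := by
  by_cases hl : X.Last p (X.rev e)
  · obtain ⟨q, hq⟩ := hl
    exact (step_pos hp hq).trans (step_pos (hp.of_eqv h) (h.symm.trans hq)).symm
  · rw [step_neg hl, step_neg (fun h' => hl (Last.of_eqv h h'))]
    exact h.cons e

lemma step_rev (e : D) {p : List D} (hp : X.Red p) :
    X.Eqv (X.step (X.rev e) (X.step e p)) p := by
  by_cases hl : X.Last p (X.rev e)
  · obtain ⟨q, hq⟩ := hl
    have h1 := step_pos hp hq
    have h2 := hp.of_eqv hq
    refine (step_eqv _ (step_red e hp) h1).trans ?_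
    rw [step_neg h2.2]
    exact hq.symm
  · rw [step_neg hl]
    refine step_pos ⟨hp, hl⟩ ?_
    rw [X.rev_rev]
    exact Eqv.refl _

lemma step_rev' (e : D) {p : List D} (hp : X.Red p) :
    X.Eqv (X.step e (X.step (X.rev e) p)) p := by
  have := step_rev (X.rev e) hp
  rwa [X.rev_rev] at this

lemma step_sq (n : ℕ) : ∀ (p : List D), p.length = n → X.Red p → ∀ d e d' e', X.Sq d e d' e' →
    X.Eqv (X.step e' (X.step d p)) (X.step d' (X.step e p)) := by
  induction n using Nat.strong_induction_on with
  | _ n ih =>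
    intro p hn hp
    have A : ∀ d e d' e', X.Sq d e d' e' → X.Last p (X.rev d) →
        X.Eqv (X.step e' (X.step d p)) (X.step d' (X.step e p)) := by
      rintro d e d' e' hs ⟨q, hq⟩
      have hq2 := hp.of_eqv hq
      have hlen := hq.length
      simp only [List.length_cons] at hlen
      have h1 := ih q.length (by omega) q rfl hq2.1 _ _ _ _ (X.rot hs)
      rw [step_neg hq2.2] at h1
      have h2 : X.Eqv (X.step e p) (X.step (X.rev d') (X.step e' q)) :=
        (step_eqv e hp hq).trans h1
      refine (step_eqv e' (step_red d hp) (step_pos hp hq)).trans (Eqv.symm ?_)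
      exact (step_eqv d' (step_red e hp) h2).trans (step_rev' d' (step_red e' hq2.1))
    have B : ∀ d e d' e', X.Sq d e d' e' → ¬ X.Last p (X.rev d) → ¬ X.Last p (X.rev e) →
        ¬ X.Last (d :: p) (X.rev e') := by
      rintro d e d' e' hs h1 h2 ⟨r, hr⟩
      rcases alt (p := d :: p) ⟨hp, h1⟩ (Eqv.refl _) hr with ⟨e1, -⟩ | ⟨d'', g, s, e1, -, e3⟩
      · apply X.ne (X.rot hs)
        rw [e1, X.rev_rev]
      · have e4 := X.rot e3
        rw [X.rev_rev] at e4
        have e6 := (X.uniq (X.rot (X.sym e4)) (X.rot hs)).2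
        apply h2
        rw [← e6, X.rev_rev]
        exact ⟨s, e1⟩
    intro d e d' e' hs
    by_cases h1 : X.Last p (X.rev d)
    · exact A d e d' e' hs h1
    by_cases h2 : X.Last p (X.rev e)
    · exact (A e d e' d' (X.sym hs) h2).symm
    rw [step_neg h1, step_neg h2, step_neg (B d e d' e' hs h1 h2),
      step_neg (B e d e' d' (X.sym hs) h2 h1)]
    exact (Flip.head p hs).eqv

variable (X)

def stSetoid : Setoid {p : List D // X.Red p} where
  r p q := X.Eqv p.1 q.1
  iseqv := ⟨fun _ => Eqv.refl _, fun h => h.symm, fun h h' => h.trans h'⟩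

def St : Type := Quotient X.stSetoid

noncomputable def act (e : D) : X.St → X.St :=
  Quotient.map (fun p => ⟨X.step e p.1, step_red e p.2⟩) (fun p _ h => step_eqv e p.2 h)

noncomputable def T (e : D) : Equiv.Perm X.St where
  toFun := X.act e
  invFun := X.act (X.rev e)
  left_inv := fun s => Quotient.inductionOn s fun p => Quotient.sound (step_rev e p.2)
  right_inv := fun s => Quotient.inductionOn s fun p => Quotient.sound (step_rev' e p.2)

lemma T_rev (e : D) : X.T (X.rev e) = (X.T e)⁻¹ := by
  ext s
  rfl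

lemma T_sq {d e d' e' : D} (h : X.Sq d e d' e') : X.T e' * X.T d = X.T d' * X.T e := by
  ext s
  exact Quotient.inductionOn s fun p => Quotient.sound (step_sq _ p.1 rfl p.2 d e d' e' h)

/-- From a potential for the flat connection `T`: reduced words attached to pairs of vertices. -/
lemma exists_words {V : Type} (src : D → V) (ψ : V → Equiv.Perm X.St)
    (hψ : ∀ d, ψ (src (X.rev d)) = X.T d * ψ (src d)) :
    ∃ σ : V → V → List D, (∀ w v, X.Red (σ w v)) ∧ (∀ w, σ w w = []) ∧
      ∀ w d, X.Eqv (σ w (src (X.rev d))) (X.step d (σ w (src d))) := by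
  let s0 : X.St := Quotient.mk X.stSetoid ⟨[], trivial⟩
  let S : V → V → X.St := fun w v => (ψ v * (ψ w)⁻¹) s0
  refine ⟨fun w v => (Quotient.out (S w v)).1, fun w v => (Quotient.out (S w v)).2, fun w => ?_,
    fun w d => ?_⟩
  · have h1 : S w w = s0 := by simp [S]
    have h2 : X.Eqv (Quotient.out (S w w)).1 [] :=
      Quotient.exact (s := X.stSetoid) ((Quotient.out_eq (S w w)).trans h1)
    exact List.length_eq_zero_iff.1 h2.length
  · have h1 : S w (src (X.rev d)) = X.act d (S w (src d)) := by
      simp only [S, hψ, mul_assoc]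
      rfl
    have h2 : X.act d (S w (src d)) = Quotient.mk X.stSetoid
        ⟨X.step d (Quotient.out (S w (src d))).1, step_red d (Quotient.out (S w (src d))).2⟩ := by
      conv_lhs => rw [← Quotient.out_eq (S w (src d))]
      rfl
    exact Quotient.exact (s := X.stSetoid) ((Quotient.out_eq _).trans (h1.trans h2))

end Cx

end Pool.Agent.H294Z.Cube
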